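import Pool.Agent.Lib.MP_be2ccc_co.Weigh

/-!
# Three disjoint pairwise anti-amicable matrices of order `2^r` with prescribed weights
-/

set_option autoImplicit false
set_option linter.unusedSimpArgs false
set_option linter.unusedTactic false
set_option linter.unreachableTactic false

namespace Pool.Agent.Lib.MP_be2ccc_co.NF

open Matrix Kronecker
open Pool.Agent.Lib.MP_be2ccc_co

/-- three pairwise disjoint, pairwise anti-amicable matrices with entries `0, 1, -1` -/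
structure Tri {ι : Type} [Fintype ι] [DecidableEq ι] (A B C : Matrix ι ι ℤ) (a b c : ℕ) :
    Prop where
  tA : ∀ i j, Tern (A i j)
  tB : ∀ i j, Tern (B i j)
  tC : ∀ i j, Tern (C i j)
  dAB : ∀ i j, A i j = 0 ∨ B i j = 0
  dAC : ∀ i j, A i j = 0 ∨ C i j = 0
  dBC : ∀ i j, B i j = 0 ∨ C i j = 0
  gA : A * Aᵀ = (a : ℤ) • (1 : Matrix ι ι ℤ)
  gB : B * Bᵀ = (b : ℤ) • (1 : Matrix ι ι ℤ)
  gC : C * Cᵀ = (c : ℤ) • (1 : Matrix ι ι ℤ)
  cAB : B * Aᵀ = -(A * Bᵀ)
  cAC : C * Aᵀ = -(A * Cᵀ)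
  cBC : C * Bᵀ = -(B * Cᵀ)

/-- a triple of order `2^r` and weights `a, b, c` exists -/
def P3 (r a b c : ℕ) : Prop :=
  ∃ (ι : Type) (_ : Fintype ι) (_ : DecidableEq ι) (A B C : Matrix ι ι ℤ),
    Fintype.card ι = 2 ^ r ∧ Tri A B C a b c

lemma P3.swap12 {r a b c : ℕ} (h : P3 r a b c) : P3 r b a c := by
  obtain ⟨ι, i1, i2, A, B, C, hc, h⟩ := h
  exact ⟨ι, i1, i2, B, A, C, hc, ⟨h.tB, h.tA, h.tC, fun i j => (h.dAB i j).symm, h.dBC, h.dAC,
    h.gB, h.gA, h.gC, by rw [h.cAB, neg_neg], h.cBC, h.cAC⟩⟩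

lemma P3.swap23 {r a b c : ℕ} (h : P3 r a b c) : P3 r a c b := by
  obtain ⟨ι, i1, i2, A, B, C, hc, h⟩ := h
  exact ⟨ι, i1, i2, A, C, B, hc, ⟨h.tA, h.tC, h.tB, h.dAC, h.dAB, fun i j => (h.dBC i j).symm,
    h.gA, h.gC, h.gB, h.cAC, h.cAB, by rw [h.cBC, neg_neg]⟩⟩

lemma tern_add {x y : ℤ} (hx : Tern x) (hy : Tern y) (h : x = 0 ∨ y = 0) : Tern (x + y) := by
  rcases h with h | h <;> subst h <;> simpa

lemma tern_sub {x y : ℤ} (hx : Tern x) (hy : Tern y) (h : x = 0 ∨ y = 0) : Tern (x - y) := by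
  rcases h with h | h <;> subst h
  · simpa using hy.neg
  · simpa using hx

lemma cast_two_smul {ι : Type} [DecidableEq ι] (a : ℕ) :
    (a : ℤ) • (1 : Matrix ι ι ℤ) + (a : ℤ) • (1 : Matrix ι ι ℤ) =
      ((2 * a : ℕ) : ℤ) • (1 : Matrix ι ι ℤ) := by
  rw [← add_smul]; congr 1; push_cast; ring

lemma P3.double {r a b c : ℕ} (h : P3 r a b c) : P3 (r + 1) (2 * a) (2 * b) (2 * c) := by
  obtain ⟨ι, i1, i2, A, B, C, hc, h⟩ := h
  have key : ∀ (X Y : Matrix ι ι ℤ), Y * Xᵀ = -(X * Yᵀ) →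
      fromBlocks Y Y (-Y) Y * (fromBlocks X X (-X) X)ᵀ =
        -(fromBlocks X X (-X) X * (fromBlocks Y Y (-Y) Y)ᵀ) := by
    intro X Y hXY
    rw [fromBlocks_transpose, fromBlocks_multiply, fromBlocks_transpose, fromBlocks_multiply,
      fromBlocks_neg]
    simp only [transpose_neg, Matrix.mul_neg, Matrix.neg_mul, hXY, neg_neg]
    congr 1 <;> abel
  have gram : ∀ (X : Matrix ι ι ℤ) (x : ℕ), X * Xᵀ = (x : ℤ) • (1 : Matrix ι ι ℤ) →
      fromBlocks X X (-X) X * (fromBlocks X X (-X) X)ᵀ =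
        ((2 * x : ℕ) : ℤ) • (1 : Matrix (ι ⊕ ι) (ι ⊕ ι) ℤ) := by
    intro X x hX
    rw [fromBlocks_transpose, fromBlocks_multiply, smul_one_blocks]
    simp only [transpose_neg, Matrix.mul_neg, Matrix.neg_mul, neg_neg, hX, cast_two_smul]
    congr 1 <;> abel
  refine ⟨ι ⊕ ι, inferInstance, inferInstance, fromBlocks A A (-A) A, fromBlocks B B (-B) B,
    fromBlocks C C (-C) C, ?_, ?_⟩
  · rw [Fintype.card_sum, hc]; ring
  · refine ⟨?_, ?_, ?_, ?_, ?_, ?_, gram _ _ h.gA, gram _ _ h.gB, gram _ _ h.gC,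
      key _ _ h.cAB, key _ _ h.cAC, key _ _ h.cBC⟩
    · rintro (i | i) (j | j) <;> simp [h.tA, (h.tA _ _).neg]
    · rintro (i | i) (j | j) <;> simp [h.tB, (h.tB _ _).neg]
    · rintro (i | i) (j | j) <;> simp [h.tC, (h.tC _ _).neg]
    · rintro (i | i) (j | j) <;> simp [h.dAB]
    · rintro (i | i) (j | j) <;> simp [h.dAC]
    · rintro (i | i) (j | j) <;> simp [h.dBC]

lemma P3.split {r a b c : ℕ} (h : P3 r a b c) : P3 (r + 1) a (a + 2 * b) (2 * c) := by
  obtain ⟨ι, i1, i2, A, B, C, hc, h⟩ := h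
  refine ⟨ι ⊕ ι, inferInstance, inferInstance, fromBlocks A 0 0 (-A),
    fromBlocks B (A + B) (A - B) B, fromBlocks C C (-C) C, ?_, ?_⟩
  · rw [Fintype.card_sum, hc]; ring
  · refine ⟨?_, ?_, ?_, ?_, ?_, ?_, ?_, ?_, ?_, ?_, ?_, ?_⟩
    · rintro (i | i) (j | j) <;> simp [h.tA, (h.tA _ _).neg, Tern.zero]
    · rintro (i | i) (j | j)
      · simpa using h.tB i j
      · simpa using tern_add (h.tA i j) (h.tB i j) (h.dAB i j)
      · simpa using tern_sub (h.tA i j) (h.tB i j) (h.dAB i j)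
      · simpa using h.tB i j
    · rintro (i | i) (j | j) <;> simp [h.tC, (h.tC _ _).neg]
    · rintro (i | i) (j | j) <;> simp [h.dAB]
    · rintro (i | i) (j | j) <;> simp [h.dAC]
    · rintro (i | i) (j | j)
      · simpa using h.dBC i j
      · rcases h.dAC i j with h1 | h1 <;> rcases h.dBC i j with h2 | h2 <;> simp [h1, h2]
      · rcases h.dAC i j with h1 | h1 <;> rcases h.dBC i j with h2 | h2 <;> simp [h1, h2]
      · simpa using h.dBC i j
    · rw [fromBlocks_transpose, fromBlocks_multiply, smul_one_blocks]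
      simp [h.gA]
    · rw [fromBlocks_transpose, fromBlocks_multiply, smul_one_blocks]
      have e : ((a + 2 * b : ℕ) : ℤ) • (1 : Matrix ι ι ℤ) =
          (a : ℤ) • (1 : Matrix ι ι ℤ) + (b : ℤ) • (1 : Matrix ι ι ℤ) +
            (b : ℤ) • (1 : Matrix ι ι ℤ) := by
        rw [← add_smul, ← add_smul]; congr 1; push_cast; ring
      simp only [transpose_add, transpose_sub, Matrix.mul_add, Matrix.add_mul, Matrix.mul_sub,
        Matrix.sub_mul, h.gA, h.gB, h.cAB, e]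
      congr 1 <;> abel
    · rw [fromBlocks_transpose, fromBlocks_multiply, smul_one_blocks]
      simp only [transpose_neg, Matrix.mul_neg, Matrix.neg_mul, neg_neg, h.gC, cast_two_smul]
      congr 1 <;> abel
    · rw [fromBlocks_transpose, fromBlocks_multiply, fromBlocks_transpose, fromBlocks_multiply,
        fromBlocks_neg]
      simp only [transpose_add, transpose_sub, transpose_neg, transpose_zero, Matrix.mul_add,
        Matrix.add_mul, Matrix.mul_sub, Matrix.sub_mul, Matrix.mul_neg, Matrix.neg_mul,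
        Matrix.mul_zero, Matrix.zero_mul, h.gA, h.gB, h.cAB]
      congr 1 <;> abel
    · rw [fromBlocks_transpose, fromBlocks_multiply, fromBlocks_transpose, fromBlocks_multiply,
        fromBlocks_neg]
      simp only [transpose_add, transpose_sub, transpose_neg, transpose_zero, Matrix.mul_add,
        Matrix.add_mul, Matrix.mul_sub, Matrix.sub_mul, Matrix.mul_neg, Matrix.neg_mul,
        Matrix.mul_zero, Matrix.zero_mul, h.cAC]
      congr 1 <;> abel
    · rw [fromBlocks_transpose, fromBlocks_multiply, fromBlocks_transpose, fromBlocks_multiply,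
        fromBlocks_neg]
      simp only [transpose_add, transpose_sub, transpose_neg, transpose_zero, Matrix.mul_add,
        Matrix.add_mul, Matrix.mul_sub, Matrix.sub_mul, Matrix.mul_neg, Matrix.neg_mul,
        Matrix.mul_zero, Matrix.zero_mul, h.cAC, h.cBC]
      congr 1 <;> abel

lemma P3.base : P3 0 1 0 0 := by
  refine ⟨Unit, inferInstance, inferInstance, 1, 0, 0, by simp, ?_⟩
  refine ⟨?_, ?_, ?_, ?_, ?_, ?_, ?_, ?_, ?_, ?_, ?_, ?_⟩
  · intro i j; simp [Tern]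
  · intro i j; simp [Tern]
  · intro i j; simp [Tern]
  · intro i j; right; rfl
  · intro i j; right; rfl
  · intro i j; right; rfl
  all_goals simp

lemma P3.odd_aux {r : ℕ} (ih : ∀ a b c, a + b + c = 2 ^ r → P3 r a b c) (a b c : ℕ)
    (h : a + b + c = 2 ^ (r + 1)) (ha : a % 2 = 1) (hb : b % 2 = 1) (hab : a ≤ b) :
    P3 (r + 1) a b c := by
  have h2 : 2 ^ (r + 1) = 2 * 2 ^ r := by ring
  have h3 := ih a ((b - a) / 2) (c / 2) (by omega)
  have h4 := h3.split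
  have e1 : a + 2 * ((b - a) / 2) = b := by omega
  have e2 : 2 * (c / 2) = c := by omega
  rwa [e1, e2] at h4

lemma P3.odd_aux' {r : ℕ} (ih : ∀ a b c, a + b + c = 2 ^ r → P3 r a b c) (a b c : ℕ)
    (h : a + b + c = 2 ^ (r + 1)) (ha : a % 2 = 1) (hb : b % 2 = 1) :
    P3 (r + 1) a b c := by
  rcases le_total a b with hab | hab
  · exact P3.odd_aux ih a b c h ha hb hab
  · exact (P3.odd_aux ih b a c (by omega) hb ha hab).swap12

/-- **Three classes**: all weights with sum `2^r`. -/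
theorem three_classes (r : ℕ) : ∀ a b c, a + b + c = 2 ^ r → P3 r a b c := by
  induction r with
  | zero =>
    intro a b c h
    rcases (by omega : (a = 1 ∧ b = 0 ∧ c = 0) ∨ (a = 0 ∧ b = 1 ∧ c = 0) ∨
      (a = 0 ∧ b = 0 ∧ c = 1)) with ⟨rfl, rfl, rfl⟩ | ⟨rfl, rfl, rfl⟩ | ⟨rfl, rfl, rfl⟩
    · exact P3.base
    · exact P3.base.swap12
    · exact P3.base.swap12.swap23
  | succ r ih =>
    intro a b c h
    have h2 : 2 ^ (r + 1) = 2 * 2 ^ r := by ring
    rcases Nat.mod_two_eq_zero_or_one a with ha | ha <;>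
      rcases Nat.mod_two_eq_zero_or_one b with hb | hb
    · have h3 := (ih (a / 2) (b / 2) (c / 2) (by omega)).double
      have e1 : 2 * (a / 2) = a := by omega
      have e2 : 2 * (b / 2) = b := by omega
      have e3 : 2 * (c / 2) = c := by omega
      rwa [e1, e2, e3] at h3
    · -- b, c odd
      exact (P3.odd_aux' ih b c a (by omega) hb (by omega)).swap23.swap12
    · -- a, c odd
      exact (P3.odd_aux' ih a c b (by omega) ha (by omega)).swap23
    · exact P3.odd_aux' ih a b c h ha hb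

/-- the product of two classes with an amicable pair -/
theorem comb {r a b c : ℕ} (h : P3 r a b c) {κ : Type} [Fintype κ] [DecidableEq κ]
    (X Y : Matrix κ κ ℤ) (x y : ℕ) (hX : ∀ i j, Tern (X i j)) (hY : ∀ i j, Tern (Y i j))
    (hXX : X * Xᵀ = (x : ℤ) • (1 : Matrix κ κ ℤ)) (hYY : Y * Yᵀ = (y : ℤ) • (1 : Matrix κ κ ℤ))
    (hXY : Y * Xᵀ = X * Yᵀ) : HasW (2 ^ r * Fintype.card κ) (a * x + b * y) := by
  obtain ⟨ι, i1, i2, A, B, C, hc, h⟩ := h
  refine HasWI.hasW (ι := ι × κ) (by rw [Fintype.card_prod, hc]) ⟨A ⊗ₖ X + B ⊗ₖ Y, ?_, ?_⟩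
  · rintro ⟨i, k⟩ ⟨j, l⟩
    rw [Matrix.add_apply, kroneckerMap_apply, kroneckerMap_apply]
    refine tern_add ((h.tA _ _).mul (hX _ _)) ((h.tB _ _).mul (hY _ _)) ?_
    rcases h.dAB i j with h1 | h1
    · left; simp [h1]
    · right; simp [h1]
  · have t1 : (A ⊗ₖ X)ᵀ = Aᵀ ⊗ₖ Xᵀ := by rw [← kroneckerMap_transpose]
    have t2 : (B ⊗ₖ Y)ᵀ = Bᵀ ⊗ₖ Yᵀ := by rw [← kroneckerMap_transpose]
    rw [transpose_add, t1, t2, Matrix.add_mul, Matrix.mul_add, Matrix.mul_add,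
      ← Matrix.mul_kronecker_mul, ← Matrix.mul_kronecker_mul, ← Matrix.mul_kronecker_mul,
      ← Matrix.mul_kronecker_mul, h.gA, h.gB, hXX, hYY, h.cAB, hXY]
    have e1 : (-(A * Bᵀ)) ⊗ₖ (X * Yᵀ) = -((A * Bᵀ) ⊗ₖ (X * Yᵀ)) := by
      ext ⟨i, k⟩ ⟨j, l⟩
      simp [kroneckerMap_apply]
    have e2 : ∀ u v : ℕ, ((u : ℤ) • (1 : Matrix ι ι ℤ)) ⊗ₖ ((v : ℤ) • (1 : Matrix κ κ ℤ)) =
        ((u * v : ℕ) : ℤ) • (1 : Matrix (ι × κ) (ι × κ) ℤ) := by
      intro u v
      rw [Matrix.smul_kronecker, Matrix.kronecker_smul, Matrix.one_kronecker_one, smul_smul]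
      push_cast
      try rfl
    rw [e1, e2, e2]
    have e3 : (((a * x + b * y : ℕ) : ℤ)) • (1 : Matrix (ι × κ) (ι × κ) ℤ) =
        ((a * x : ℕ) : ℤ) • (1 : Matrix (ι × κ) (ι × κ) ℤ) +
          ((b * y : ℕ) : ℤ) • (1 : Matrix (ι × κ) (ι × κ) ℤ) := by
      rw [← add_smul, Nat.cast_add]
    rw [e3]
    abel

end Pool.Agent.Lib.MP_be2ccc_co.NF
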