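import Pool.Agent.Lib.MP_be2ccc_co.NF.Main

/-!
# Weighing matrices `W(h, h - 1)` with `4 ∣ h` are equivalent to skew ones; Paley's matrices
-/

set_option autoImplicit false
set_option linter.unusedSimpArgs false
set_option linter.unusedSectionVars false

namespace Pool.Agent.Lib.MP_be2ccc_co.NF

open Matrix Kronecker
open Pool.Agent.Lib.MP_be2ccc_co

/-- each row has exactly one zero -/
lemma row_zero {h : ℕ} (h1 : 1 ≤ h) (A : Matrix (Fin h) (Fin h) ℤ) (hT : ∀ i j, Tern (A i j))
    (hA : A * Aᵀ = ((h : ℤ) - 1) • (1 : Matrix (Fin h) (Fin h) ℤ)) (i : Fin h) :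
    ∃! j, A i j = 0 := by
  have e1 : ∑ j, A i j * A i j = (h : ℤ) - 1 := by
    have h2 := congrFun (congrFun hA i) i
    rw [Matrix.mul_apply] at h2
    simpa using h2
  have e2 : ∀ j, A i j * A i j = 1 - if A i j = 0 then 1 else 0 := by
    intro j
    rcases hT i j with h2 | h2 | h2 <;> simp [h2]
  rw [Finset.sum_congr rfl fun j _ => e2 j, Finset.sum_sub_distrib] at e1
  simp only [Finset.sum_const, Finset.card_univ, Fintype.card_fin, nsmul_eq_mul, mul_one,
    Finset.sum_boole] at e1
  have e3 : (Finset.univ.filter fun j => A i j = 0).card = 1 := by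
    have : ((Finset.univ.filter fun j => A i j = 0).card : ℤ) = 1 := by linarith
    exact_mod_cast this
  obtain ⟨j, hj⟩ := Finset.card_eq_one.mp e3
  refine ⟨j, ?_, ?_⟩
  · have : j ∈ Finset.univ.filter fun j => A i j = 0 := by rw [hj]; simp
    simpa using this
  · intro j' hj'
    have : j' ∈ Finset.univ.filter fun j => A i j = 0 := by simpa using hj'
    rw [hj] at this
    simpa using this

/-- a product of two numbers `±1` minus one is divisible by four -/
lemma four_dvd {x y : ℤ} (hx : x = 1 ∨ x = -1) (hy : y = 1 ∨ y = -1) :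
    (4 : ℤ) ∣ (x - 1) * (y - 1) := by
  rcases hx with rfl | rfl <;> rcases hy with rfl | rfl <;> norm_num

/-- **Delsarte, Goethals, Seidel**: a `W(h, h - 1)` with `4 ∣ h` gives a skew one. -/
theorem skew_of_conf (h : ℕ) (h1 : 1 ≤ h) (h4 : 4 ∣ h) (hW : HasW h (h - 1)) :
    ∃ K : Matrix (Fin h) (Fin h) ℤ, (∀ i j, i ≠ j → K i j = 1 ∨ K i j = -1) ∧ Kᵀ = -K ∧
      K * Kᵀ = ((h : ℤ) - 1) • (1 : Matrix (Fin h) (Fin h) ℤ) := by
  obtain ⟨A, hT, hA0⟩ := hW
  have hA' := both_sides A hA0
  have hc : ((h - 1 : ℕ) : ℤ) = (h : ℤ) - 1 := by rw [Nat.cast_sub h1]; norm_num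
  rw [hc] at hA0 hA'
  -- the zero of each row
  have hrow := row_zero h1 A hT hA0
  have hcol := row_zero h1 Aᵀ (fun i j => hT j i) (by rw [transpose_transpose]; exact hA')
  choose σ hσ hσu using hrow
  have hinj : Function.Injective σ := by
    intro i i' hii
    obtain ⟨k, hk, hku⟩ := hcol (σ i)
    have e1 := hku i (hσ i)
    have e2 := hku i' (by
      show A i' (σ i) = 0
      rw [hii]; exact hσ i')
    rw [e1, e2]
  have hbij : Function.Bijective σ := (Fintype.bijective_iff_injective_and_card σ).mpr ⟨hinj, rfl⟩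
  let e : Fin h ≃ Fin h := Equiv.ofBijective σ hbij
  let o : Fin h := ⟨0, by omega⟩
  let B : Matrix (Fin h) (Fin h) ℤ := Matrix.of fun i j => A i (σ j)
  have hB : ∀ i j, B i j = A i (σ j) := fun _ _ => rfl
  have hBd : ∀ i, B i i = 0 := fun i => hσ i
  have hBo : ∀ i j, i ≠ j → B i j = 1 ∨ B i j = -1 := by
    intro i j hij
    rcases hT i (σ j) with h2 | h2
    · exact absurd (hinj (hσu i _ h2)).symm hij
    · exact h2
  have hBB : ∀ i j, ∑ k, B i k * B j k = if i = j then (h : ℤ) - 1 else 0 := by
    intro i j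
    have h2 := congrFun (congrFun hA0 i) j
    rw [Matrix.mul_apply] at h2
    simp only [transpose_apply, Matrix.smul_apply, Matrix.one_apply, smul_eq_mul, mul_ite,
      mul_one, mul_zero] at h2
    rw [← h2]
    exact Fintype.sum_equiv e _ _ fun k => rfl
  let r : Fin h → ℤ := fun i => if i = o then 1 else -B i o
  let c : Fin h → ℤ := fun j => if j = o then 1 else B o j
  have hr : ∀ i, r i = 1 ∨ r i = -1 := by
    intro i
    show (if i = o then (1 : ℤ) else -B i o) = 1 ∨ (if i = o then (1 : ℤ) else -B i o) = -1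
    split_ifs with h2
    · left; rfl
    · rcases hBo i o h2 with h3 | h3 <;> simp [h3]
  have hcc : ∀ i, c i = 1 ∨ c i = -1 := by
    intro i
    show (if i = o then (1 : ℤ) else B o i) = 1 ∨ (if i = o then (1 : ℤ) else B o i) = -1
    split_ifs with h2
    · left; rfl
    · exact hBo o i (Ne.symm h2)
  have hc2 : ∀ i, c i * c i = 1 := by
    intro i; rcases hcc i with h2 | h2 <;> simp [h2]
  let K : Matrix (Fin h) (Fin h) ℤ := Matrix.of fun i j => r i * B i j * c j
  have hK : ∀ i j, K i j = r i * B i j * c j := fun _ _ => rfl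
  have hKd : ∀ i, K i i = 0 := by intro i; rw [hK, hBd]; ring
  have hKo : ∀ i j, i ≠ j → K i j = 1 ∨ K i j = -1 := by
    intro i j hij
    rw [hK]
    rcases hr i with h2 | h2 <;> rcases hBo i j hij with h3 | h3 <;>
      rcases hcc j with h5 | h5 <;> simp [h2, h3, h5]
  have hKK : ∀ i j, ∑ k, K i k * K j k = if i = j then (h : ℤ) - 1 else 0 := by
    intro i j
    have h2 : ∀ k, K i k * K j k = r i * r j * (B i k * B j k) := by
      intro k
      rw [hK, hK]
      calc r i * B i k * c k * (r j * B j k * c k) = r i * r j * (B i k * B j k) * (c k * c k) := by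
            ring
        _ = _ := by rw [hc2, mul_one]
    rw [Finset.sum_congr rfl fun k _ => h2 k, ← Finset.mul_sum, hBB]
    split_ifs with hij
    · subst hij
      rcases hr i with h3 | h3 <;> rw [h3] <;> ring
    · ring
  have hKo1 : ∀ j, j ≠ o → K o j = 1 := by
    intro j hj
    rw [hK]
    show (if o = o then (1 : ℤ) else -B o o) * B o j * (if j = o then 1 else B o j) = 1
    rw [if_pos rfl, if_neg hj]
    rcases hBo o j (Ne.symm hj) with h3 | h3 <;> rw [h3] <;> norm_num
  have hKo2 : ∀ i, i ≠ o → K i o = -1 := by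
    intro i hi
    rw [hK]
    show (if i = o then (1 : ℤ) else -B i o) * B i o * (if o = o then 1 else B o o) = -1
    rw [if_pos rfl, if_neg hi]
    rcases hBo i o hi with h3 | h3 <;> rw [h3] <;> norm_num
  -- row sums
  have hrs : ∀ i, i ≠ o → ∑ k, K i k = -1 := by
    intro i hi
    have h2 := hKK o i
    rw [if_neg (Ne.symm hi)] at h2
    have h3 : ∀ k, K o k * K i k = K i k - if k = o then K i o else 0 := by
      intro k
      by_cases hk : k = o
      · subst hk; rw [hKd, if_pos rfl]; ring
      · rw [hKo1 k hk, if_neg hk]; ring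
    rw [Finset.sum_congr rfl fun k _ => h3 k, Finset.sum_sub_distrib] at h2
    simp only [Finset.sum_ite_eq', Finset.mem_univ, if_true] at h2
    rw [hKo2 i hi] at h2
    linarith
  have hskew : ∀ i j, K j i = -K i j := by
    intro i j
    by_cases hij : i = j
    · subst hij; rw [hKd]; ring
    by_cases hi : i = o
    · subst hi
      rw [hKo1 j (Ne.symm hij), hKo2 j (Ne.symm hij)]
    by_cases hj : j = o
    · subst hj
      rw [hKo1 i hi, hKo2 i hi]; ring
    have h2 : ∑ k, (K i k - 1) * (K j k - 1) = h + 2 := by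
      have h3 : ∀ k, (K i k - 1) * (K j k - 1) = K i k * K j k - K i k - K j k + 1 := by
        intro k; ring
      rw [Finset.sum_congr rfl fun k _ => h3 k, Finset.sum_add_distrib, Finset.sum_sub_distrib,
        Finset.sum_sub_distrib, hKK, if_neg hij, hrs i hi, hrs j hj]
      simp
      ring
    have h5 : ∑ k, (K i k - 1) * (K j k - 1) =
        ∑ k, (if k = i ∨ k = j then 0 else (K i k - 1) * (K j k - 1)) +
          ((1 - K j i) + (1 - K i j)) := by
      have h6 : ∀ k, (K i k - 1) * (K j k - 1) =
          (if k = i ∨ k = j then 0 else (K i k - 1) * (K j k - 1)) +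
            ((if k = i then (1 - K j i) else 0) + (if k = j then (1 - K i j) else 0)) := by
        intro k
        by_cases hk : k = i
        · subst hk
          rw [hKd, if_pos (Or.inl rfl), if_pos rfl, if_neg hij]
          ring
        · by_cases hk' : k = j
          · subst hk'
            rw [hKd, if_pos (Or.inr rfl), if_neg hk, if_pos rfl]
            ring
          · rw [if_neg (by push Not; exact ⟨hk, hk'⟩), if_neg hk, if_neg hk']
            ring
      rw [Finset.sum_congr rfl fun k _ => h6 k, Finset.sum_add_distrib, Finset.sum_add_distrib]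
      simp
    have h7 : (4 : ℤ) ∣ ∑ k, (if k = i ∨ k = j then 0 else (K i k - 1) * (K j k - 1)) := by
      refine Finset.dvd_sum fun k _ => ?_
      split_ifs with hk
      · exact dvd_zero _
      · push Not at hk
        exact four_dvd (hKo i k (Ne.symm hk.1)) (hKo j k (Ne.symm hk.2))
    have h8 : (4 : ℤ) ∣ (h : ℤ) := by exact_mod_cast h4
    rcases hKo i j hij with h9 | h9 <;> rcases hKo j i (Ne.symm hij) with h10 | h10
    · exfalso; rw [h9, h10] at h5; omega
    · rw [h9, h10]
    · rw [h9, h10]; norm_num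
    · exfalso; rw [h9, h10] at h5; omega
  refine ⟨K, hKo, ?_, ?_⟩
  · ext i j
    rw [transpose_apply, Matrix.neg_apply, hskew]
  · ext i j
    rw [Matrix.mul_apply]
    simp only [transpose_apply, Matrix.smul_apply, Matrix.one_apply, smul_eq_mul, mul_ite, mul_one,
      mul_zero]
    exact hKK i j

/-! ### Paley's matrices -/

section paleyK
variable (F : Type) [Field F] [Fintype F] [DecidableEq F]

lemma chF_shift (hF : ringChar F ≠ 2) (d : F) (hd : d ≠ 0) :
    ∑ t : F, quadraticChar F t * quadraticChar F (t + d) = -1 := by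
  have h1 : ∀ t : F, quadraticChar F t * quadraticChar F (t + d) =
      quadraticChar F (1 + d * t⁻¹) - if t = 0 then 1 else 0 := by
    intro t
    by_cases ht : t = 0
    · subst ht
      simp
    · rw [if_neg ht, sub_zero]
      have h2 : t + d = t * (1 + d * t⁻¹) := by
        field_simp
      have h3 : quadraticChar F t * quadraticChar F t = 1 := by
        have := quadraticChar_sq_one (F := F) ht
        rwa [sq] at this
      rw [h2, map_mul, ← mul_assoc, h3, one_mul]
  rw [Finset.sum_congr rfl fun t _ => h1 t, Finset.sum_sub_distrib]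
  have h3 : ∑ t : F, quadraticChar F (1 + d * t⁻¹) = 0 := by
    have h4 : ∑ t : F, quadraticChar F (1 + d * t⁻¹) = ∑ t : F, quadraticChar F t := by
      refine Fintype.sum_equiv (((Equiv.inv F).trans (Equiv.mulLeft₀ d hd)).trans
        (Equiv.addLeft 1)) _ _ ?_
      intro t
      simp
    rw [h4, quadraticChar_sum_zero hF]
  rw [h3]
  simp

/-- `W(q + 1, q)` from the field of `q ≡ 3 (mod 4)` elements. -/
theorem paley_conf (hF : ringChar F ≠ 2) : HasW (Fintype.card F + 1) (Fintype.card F) := by
  have hT : ∀ x : F, Tern (quadraticChar F x) := by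
    intro x
    rcases quadraticChar_isQuadratic F x with h | h | h
    · left; exact h
    · right; left; exact h
    · right; right; exact h
  have hs : ∀ x : F, ∑ y : F, quadraticChar F (x - y) = 0 := by
    intro x
    rw [← quadraticChar_sum_zero hF]
    exact Fintype.sum_equiv (Equiv.subLeft x) _ _ fun y => rfl
  have hg : ∀ x x' : F, ∑ y : F, quadraticChar F (x - y) * quadraticChar F (x' - y) =
      if x = x' then (Fintype.card F : ℤ) - 1 else -1 := by
    intro x x'
    split_ifs with hxx
    · subst hxx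
      have h1 : ∀ y : F, quadraticChar F (x - y) * quadraticChar F (x - y) =
          1 - if y = x then 1 else 0 := by
        intro y
        by_cases hy : y = x
        · subst hy; simp
        · have := quadraticChar_sq_one (F := F) (sub_ne_zero.mpr (Ne.symm hy))
          rw [sq] at this
          rw [this, if_neg hy, sub_zero]
      rw [Finset.sum_congr rfl fun y _ => h1 y, Finset.sum_sub_distrib]
      simp
    · rw [← chF_shift F hF (x' - x) (sub_ne_zero.mpr (Ne.symm hxx))]
      refine Fintype.sum_equiv (Equiv.subLeft x) _ _ ?_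
      intro y
      simp only [Equiv.subLeft_apply]
      congr 2
      ring
  let K : Matrix (Option F) (Option F) ℤ := Matrix.of fun a b => match a, b with
    | none, none => 0
    | none, some _ => 1
    | some _, none => 1
    | some x, some y => quadraticChar F (x - y)
  refine HasWI.hasW (ι := Option F) (by simp) ⟨K, ?_, ?_⟩
  · rintro (_ | x) (_ | y)
    · exact Tern.zero
    · exact Tern.one
    · exact Tern.one
    · exact hT _
  · ext a b
    rw [Matrix.mul_apply, Fintype.sum_option]
    simp only [transpose_apply, Matrix.smul_apply, Matrix.one_apply, smul_eq_mul]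
    rcases a with _ | x <;> rcases b with _ | y
    · show (0 : ℤ) * 0 + ∑ _i : F, (1 : ℤ) * 1 = _
      simp
    · show (0 : ℤ) * 1 + ∑ i : F, (1 : ℤ) * quadraticChar F (y - i) = _
      simp only [one_mul, hs]
      simp
    · show (1 : ℤ) * 0 + ∑ i : F, quadraticChar F (x - i) * (1 : ℤ) = _
      simp only [mul_one, hs]
      simp
    · show (1 : ℤ) * 1 + ∑ i : F, quadraticChar F (x - i) * quadraticChar F (y - i) = _
      rw [hg]
      by_cases hxy : x = y
      · subst hxy; simp
      · simp [hxy]

end paleyK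

/-- **All weights** in the orders `2^r h`, `2^r ≥ 18^7 h^8`, whenever a `W(h, h - 1)` exists. -/
theorem conf_all (h r k : ℕ) (h4 : 4 ∣ h) (hW : HasW h (h - 1)) (hr : 18 ^ 7 * h ^ 8 ≤ 2 ^ r)
    (hk : k ≤ 2 ^ r * h) : HasW (2 ^ r * h) k := by
  rcases Nat.eq_zero_or_pos h with h0 | h0
  · subst h0
    rw [mul_zero]
    exact hasW_zero_order k
  obtain ⟨K, hK, hKt, hKK⟩ := skew_of_conf h h0 h4 hW
  exact skew_all h r k K hK hKt hKK hr hk

/-- Paley orders -/
theorem paley_conf_pow (q : ℕ) (hq : IsPrimePow q) (h3 : q % 4 = 3) : HasW (q + 1) q := by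
  obtain ⟨p, f, hp, hf, rfl⟩ := hq
  have hp' : p.Prime := hp.nat_prime
  haveI : Fact p.Prime := ⟨hp'⟩
  haveI : Fintype (GaloisField p f) := Fintype.ofFinite _
  have hcard : Fintype.card (GaloisField p f) = p ^ f := by
    rw [← Nat.card_eq_fintype_card, GaloisField.card p f hf.ne']
  have hchar : ringChar (GaloisField p f) ≠ 2 := by
    rw [ringChar.eq (GaloisField p f) p]
    rintro rfl
    rcases f with _ | f
    · omega
    · rw [pow_succ] at h3; omega
  classical
  have h1 := paley_conf (GaloisField p f) hchar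
  rwa [hcard] at h1

end Pool.Agent.Lib.MP_be2ccc_co.NF
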