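import Pool.Agent.Lib.MP_be2ccc_co.NF.Class

/-!
# Hadamard matrices of order `2^s m` for `m^3 ≤ 2^s` (Seberry's theorem in a weak explicit form)
-/

set_option autoImplicit false
set_option linter.unusedSimpArgs false
set_option linter.unusedSectionVars false

namespace Pool.Agent.Lib.MP_be2ccc_co.NF

open Matrix Kronecker
open Pool.Agent.Lib.MP_be2ccc_co

/-- three classes times three pairwise amicable matrices -/
theorem comb3 {r a b c k : ℕ} (h : P3 r a b c) {κ : Type} [Fintype κ] [DecidableEq κ]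
    (X Y Z : Matrix κ κ ℤ) (hX : ∀ i j, Tern (X i j)) (hY : ∀ i j, Tern (Y i j))
    (hZ : ∀ i j, Tern (Z i j)) (hXY : Y * Xᵀ = X * Yᵀ) (hXZ : Z * Xᵀ = X * Zᵀ)
    (hYZ : Z * Yᵀ = Y * Zᵀ)
    (hk : (a : ℤ) • (X * Xᵀ) + (b : ℤ) • (Y * Yᵀ) + (c : ℤ) • (Z * Zᵀ) =
      (k : ℤ) • (1 : Matrix κ κ ℤ)) : HasW (2 ^ r * Fintype.card κ) k := by
  obtain ⟨ι, i1, i2, A, B, C, hc, h⟩ := h
  refine HasWI.hasW (ι := ι × κ) (by rw [Fintype.card_prod, hc])
    ⟨A ⊗ₖ X + B ⊗ₖ Y + C ⊗ₖ Z, ?_, ?_⟩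
  · rintro ⟨i, k⟩ ⟨j, l⟩
    rw [Matrix.add_apply, Matrix.add_apply, kroneckerMap_apply, kroneckerMap_apply,
      kroneckerMap_apply]
    refine tern_add (tern_add ((h.tA _ _).mul (hX _ _)) ((h.tB _ _).mul (hY _ _)) ?_)
      ((h.tC _ _).mul (hZ _ _)) ?_
    · rcases h.dAB i j with h1 | h1
      · left; simp [h1]
      · right; simp [h1]
    · rcases h.dAC i j with h1 | h1
      · rcases h.dBC i j with h2 | h2
        · left; simp [h1, h2]
        · right; simp [h2]
      · right; simp [h1]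
  · have tt : ∀ (M : Matrix ι ι ℤ) (N : Matrix κ κ ℤ), (M ⊗ₖ N)ᵀ = Mᵀ ⊗ₖ Nᵀ := by
      intro M N; rw [← kroneckerMap_transpose]
    have en : ∀ (M : Matrix ι ι ℤ) (N : Matrix κ κ ℤ), (-M) ⊗ₖ N = -(M ⊗ₖ N) := by
      intro M N
      ext ⟨i, k⟩ ⟨j, l⟩
      simp [kroneckerMap_apply]
    have es : ∀ (u : ℤ) (N : Matrix κ κ ℤ), (u • (1 : Matrix ι ι ℤ)) ⊗ₖ N =
        (1 : Matrix ι ι ℤ) ⊗ₖ (u • N) := by
      intro u N
      rw [Matrix.smul_kronecker, Matrix.kronecker_smul]
    rw [transpose_add, transpose_add, tt, tt, tt]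
    simp only [Matrix.add_mul, Matrix.mul_add, ← Matrix.mul_kronecker_mul, h.gA, h.gB, h.gC,
      h.cAB, h.cAC, h.cBC, hXY, hXZ, hYZ, en, es]
    have e1 : (1 : Matrix ι ι ℤ) ⊗ₖ ((a : ℤ) • (X * Xᵀ)) + (1 : Matrix ι ι ℤ) ⊗ₖ ((b : ℤ) • (Y * Yᵀ)) +
        (1 : Matrix ι ι ℤ) ⊗ₖ ((c : ℤ) • (Z * Zᵀ)) = (k : ℤ) • (1 : Matrix (ι × κ) (ι × κ) ℤ) := by
      rw [← Matrix.kronecker_add, ← Matrix.kronecker_add, hk, Matrix.kronecker_smul,
        Matrix.one_kronecker_one]
    rw [← e1]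
    abel

lemma HasW.kron {n n' k k' : ℕ} (h : HasW n k) (h' : HasW n' k') : HasW (n * n') (k * k') := by
  obtain ⟨A, hA, hAA⟩ := h
  obtain ⟨B, hB, hBB⟩ := h'
  refine HasWI.hasW (ι := Fin n × Fin n') (by simp) ⟨A ⊗ₖ B, fun x y => (hA _ _).mul (hB _ _), ?_⟩
  have tt : (A ⊗ₖ B)ᵀ = Aᵀ ⊗ₖ Bᵀ := by rw [← kroneckerMap_transpose]
  rw [tt, ← Matrix.mul_kronecker_mul, hAA, hBB, Matrix.smul_kronecker, Matrix.kronecker_smul,
    Matrix.one_kronecker_one, smul_smul]
  push_cast
  rfl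

section paley
variable (p : ℕ) [Fact p.Prime]

/-- the character -/
noncomputable def ch (x : ZMod p) : ℤ := quadraticChar (ZMod p) x

lemma ch_sum (hp : p ≠ 2) : ∑ x : ZMod p, ch p x = 0 := by
  have : ringChar (ZMod p) ≠ 2 := by rw [ZMod.ringChar_zmod_n]; exact hp
  exact quadraticChar_sum_zero this

lemma ch_tern (x : ZMod p) : Tern (ch p x) := by
  rcases quadraticChar_isQuadratic (ZMod p) x with h | h | h
  · left; exact h
  · right; left; exact h
  · right; right; exact h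

lemma ch_zero : ch p 0 = 0 := by
  unfold ch; simp

lemma ch_sq {x : ZMod p} (hx : x ≠ 0) : ch p x * ch p x = 1 := by
  have := quadraticChar_sq_one (F := ZMod p) hx
  unfold ch
  rw [← sq]; exact this

lemma ch_mul (x y : ZMod p) : ch p (x * y) = ch p x * ch p y :=
  map_mul (quadraticChar (ZMod p)) x y

lemma ch_shift (hp : p ≠ 2) (d : ZMod p) (hd : d ≠ 0) : ∑ t : ZMod p, ch p t * ch p (t + d) = -1 := by
  have h1 : ∀ t : ZMod p, ch p t * ch p (t + d) = ch p (1 + d * t⁻¹) - if t = 0 then 1 else 0 := by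
    intro t
    by_cases ht : t = 0
    · subst ht
      rw [ch_zero]
      have : ch p 1 = 1 := by unfold ch; simp
      simp [this]
    · rw [if_neg ht, sub_zero]
      have h2 : t + d = t * (1 + d * t⁻¹) := by
        field_simp
      rw [h2, ch_mul, ← mul_assoc, ch_sq p ht, one_mul]
  rw [Finset.sum_congr rfl fun t _ => h1 t, Finset.sum_sub_distrib]
  have h3 : ∑ t : ZMod p, ch p (1 + d * t⁻¹) = 0 := by
    have h4 : ∑ t : ZMod p, ch p (1 + d * t⁻¹) = ∑ t : ZMod p, ch p t := by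
      refine Fintype.sum_equiv (((Equiv.inv (ZMod p)).trans (Equiv.mulLeft₀ d hd)).trans
        (Equiv.addLeft 1)) _ _ ?_
      intro t
      simp
    rw [h4, ch_sum p hp]
  rw [h3]
  simp

/-- the Paley core -/
noncomputable def Qm : Matrix (ZMod p) (ZMod p) ℤ := Matrix.of fun x y => ch p (x - y)

/-- the all-ones matrix -/
def Jm : Matrix (ZMod p) (ZMod p) ℤ := Matrix.of fun _ _ => 1

lemma Qm_tern (x y : ZMod p) : Tern (Qm p x y) := ch_tern p _

lemma Qm_diag (x : ZMod p) : Qm p x x = 0 := by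
  show ch p (x - x) = 0
  rw [sub_self, ch_zero]

lemma Qm_transpose : (Qm p)ᵀ = ch p (-1) • Qm p := by
  ext x y
  rw [transpose_apply, Matrix.smul_apply]
  show ch p (y - x) = ch p (-1) • ch p (x - y)
  rw [smul_eq_mul, ← ch_mul]
  congr 1; ring

lemma Qm_gram (hp : p ≠ 2) : Qm p * (Qm p)ᵀ = (p : ℤ) • (1 : Matrix (ZMod p) (ZMod p) ℤ) - Jm p := by
  ext x y
  rw [Matrix.mul_apply]
  simp only [transpose_apply, Matrix.sub_apply, Matrix.smul_apply, smul_eq_mul, Matrix.one_apply]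
  show ∑ z, ch p (x - z) * ch p (y - z) = _ - 1
  by_cases hxy : x = y
  · subst hxy
    have h1 : ∀ z : ZMod p, ch p (x - z) * ch p (x - z) = 1 - if z = x then 1 else 0 := by
      intro z
      by_cases hz : z = x
      · subst hz; rw [sub_self, ch_zero]; simp
      · rw [ch_sq p (sub_ne_zero.mpr (Ne.symm hz)), if_neg hz, sub_zero]
    rw [Finset.sum_congr rfl fun z _ => h1 z, Finset.sum_sub_distrib]
    simp [ZMod.card]
  · rw [if_neg hxy, mul_zero, zero_sub, ← ch_shift p hp (y - x) (sub_ne_zero.mpr (Ne.symm hxy))]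
    refine Fintype.sum_equiv (Equiv.subLeft x) _ _ ?_
    intro z
    simp only [Equiv.subLeft_apply]
    congr 2
    ring

lemma Qm_J (hp : p ≠ 2) : Qm p * Jm p = 0 := by
  ext x y
  rw [Matrix.mul_apply]
  show ∑ z, ch p (x - z) * 1 = 0
  simp only [mul_one]
  rw [← ch_sum p hp]
  refine Fintype.sum_equiv (Equiv.subLeft x) _ _ ?_
  intro z
  simp

lemma J_transpose : (Jm p)ᵀ = Jm p := by
  ext x y; rfl

lemma J_J : Jm p * Jm p = (p : ℤ) • Jm p := by
  ext x y
  rw [Matrix.mul_apply]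
  show ∑ _z : ZMod p, (1 : ℤ) * 1 = (p : ℤ) • 1
  simp [ZMod.card]

lemma J_Q (hp : p ≠ 2) : Jm p * (Qm p)ᵀ = 0 := by
  have := congrArg Matrix.transpose (Qm_J p hp)
  rw [transpose_mul, J_transpose, transpose_zero] at this
  exact this

lemma Qm_off {x y : ZMod p} (h : x ≠ y) : Qm p x y = 1 ∨ Qm p x y = -1 := by
  rcases Qm_tern p x y with h1 | h1
  · exfalso
    have h2 := ch_sq p (sub_ne_zero.mpr h)
    have h3 : ch p (x - y) = 0 := h1
    rw [h3] at h2
    norm_num at h2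
  · exact h1

end paley

/-! ### the three blocks -/

section blocks
variable {n : Type} [Fintype n] [DecidableEq n]

/-- first block -/
def bC (Q : Matrix n n ℤ) (ε : ℤ) : Matrix (n ⊕ n) (n ⊕ n) ℤ :=
  fromBlocks (1 - Q) (Q + 1) (ε • Q + 1) (ε • Q - 1)

/-- second and third block -/
def bY (J : Matrix n n ℤ) : Matrix (n ⊕ n) (n ⊕ n) ℤ := fromBlocks J J (-J) J

lemma bC_bC (Q J : Matrix n n ℤ) (ε p : ℤ) (hε : ε = 1 ∨ ε = -1) (hQ : Qᵀ = ε • Q)
    (hQQ : Q * Qᵀ = p • (1 : Matrix n n ℤ) - J) :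
    bC Q ε * (bC Q ε)ᵀ = fromBlocks ((2 * (p + 1)) • (1 : Matrix n n ℤ) - (2 : ℤ) • J) 0 0
      ((2 * (p + 1)) • (1 : Matrix n n ℤ) - (2 : ℤ) • J) := by
  unfold bC
  rw [fromBlocks_transpose, fromBlocks_multiply]
  rcases hε with rfl | rfl
  · rw [one_smul] at hQ
    rw [hQ] at hQQ
    simp only [transpose_add, transpose_sub, transpose_one, one_smul, hQ, Matrix.mul_add,
      Matrix.add_mul, Matrix.mul_sub, Matrix.sub_mul, Matrix.mul_one, Matrix.one_mul, hQQ]
    congr 1 <;> module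
  · rw [neg_smul, one_smul] at hQ
    rw [hQ, Matrix.mul_neg] at hQQ
    have hQQ' : Q * Q = -(p • (1 : Matrix n n ℤ) - J) := by rw [← hQQ, neg_neg]
    simp only [transpose_add, transpose_sub, transpose_one, neg_smul, one_smul, transpose_neg, hQ,
      neg_neg, Matrix.mul_add, Matrix.add_mul, Matrix.mul_sub, Matrix.sub_mul, Matrix.mul_one,
      Matrix.one_mul, Matrix.mul_neg, Matrix.neg_mul, hQQ']
    congr 1 <;> module

lemma bY_bC (Q T U : Matrix n n ℤ) (ε : ℤ) (hε : ε = 1 ∨ ε = -1) (hQ : Qᵀ = ε • Q)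
    (hT : Tᵀ = T) (hTQ : T * Q = U) (hQT : Q * T = U) :
    bY T * (bC Q ε)ᵀ = bC Q ε * (bY T)ᵀ := by
  unfold bC bY
  rw [fromBlocks_transpose, fromBlocks_multiply, fromBlocks_transpose, fromBlocks_multiply]
  rcases hε with rfl | rfl
  · rw [one_smul] at hQ
    simp only [transpose_add, transpose_sub, transpose_one, one_smul, transpose_neg, hQ, hT,
      Matrix.mul_add, Matrix.add_mul, Matrix.mul_sub, Matrix.sub_mul, Matrix.mul_one,
      Matrix.one_mul, Matrix.mul_neg, Matrix.neg_mul, hTQ, hQT]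
    congr 1 <;> module
  · rw [neg_smul, one_smul] at hQ
    simp only [transpose_add, transpose_sub, transpose_one, neg_smul, one_smul, transpose_neg, hQ,
      hT, neg_neg, Matrix.mul_add, Matrix.add_mul, Matrix.mul_sub, Matrix.sub_mul, Matrix.mul_one,
      Matrix.one_mul, Matrix.mul_neg, Matrix.neg_mul, hTQ, hQT]
    congr 1 <;> module

lemma bY_bY (S T U : Matrix n n ℤ) (hS : Sᵀ = S) (hT : Tᵀ = T) (hST : S * T = U) :
    bY S * (bY T)ᵀ = fromBlocks ((2 : ℤ) • U) 0 0 ((2 : ℤ) • U) := by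
  unfold bY
  rw [fromBlocks_transpose, fromBlocks_multiply]
  simp only [transpose_neg, hS, hT, Matrix.mul_neg, Matrix.neg_mul, neg_neg, hST]
  congr 1 <;> module

end blocks

/-- Hadamard matrices of order `2^(s+1) p` -/
theorem had_prime (p : ℕ) [Fact p.Prime] (hp : p ≠ 2) (s : ℕ) (hs : 2 ≤ s)
    (h : (p + 1) * (p - 3) ≤ 2 * 2 ^ s) : HasW (2 ^ (s + 1) * p) (2 ^ (s + 1) * p) := by
  have hpp : p.Prime := Fact.out
  have hodd : p % 2 = 1 := by
    rcases hpp.eq_two_or_odd with h1 | h1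
    · exact absurd h1 hp
    · exact h1
  have hp3 : 3 ≤ p := by
    have := hpp.two_le
    omega
  obtain ⟨q, hq⟩ : ∃ q, p = q + 3 := ⟨p - 3, by omega⟩
  have hq2 : q % 2 = 0 := by omega
  have hq3 : p - 3 = q := by omega
  rw [hq3] at h
  -- the parameters
  obtain ⟨w, hw⟩ : ∃ w, 2 ^ s = 4 * w := ⟨2 ^ (s - 2), by
    have : s = 2 + (s - 2) := by omega
    conv_lhs => rw [this, pow_add]
    norm_num⟩
  have hw1 : 1 ≤ w := by
    rcases Nat.eq_zero_or_pos w with h1 | h1
    · rw [h1] at hw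
      have : 0 < 2 ^ s := by positivity
      omega
    · exact h1
  -- σ = 2 v
  set v : ℕ := 2 ^ s / (2 * (p + 1)) + 1 with hv
  have hdm := Nat.div_add_mod (2 ^ s) (2 * (p + 1))
  have hml := Nat.mod_lt (2 ^ s) (show 0 < 2 * (p + 1) by omega)
  have hv1 : 2 ^ s ≤ 2 * v * (p + 1) := by
    have : 2 * v * (p + 1) = 2 * (p + 1) * (2 ^ s / (2 * (p + 1))) + 2 * (p + 1) := by
      rw [hv]; ring
    omega
  have hv2 : 2 * v * (p + 1) ≤ 2 ^ s + 2 * (p + 1) := by
    have : 2 * v * (p + 1) = 2 * (p + 1) * (2 ^ s / (2 * (p + 1))) + 2 * (p + 1) := by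
      rw [hv]; ring
    omega
  have hv3 : 2 * v * q ≤ 2 ^ s := by
    -- multiply by p + 1
    have h1 : (p + 1) * (2 * v * q) ≤ (p + 1) * 2 ^ s := by
      calc (p + 1) * (2 * v * q) = 2 * v * (p + 1) * q := by ring
        _ ≤ (2 ^ s + 2 * (p + 1)) * q := Nat.mul_le_mul_right _ hv2
        _ = 2 ^ s * q + 2 * ((p + 1) * q) := by ring
        _ ≤ 2 ^ s * q + 2 * (2 * 2 ^ s) := by omega
        _ = 2 ^ s * (q + 4) := by ring
        _ = (p + 1) * 2 ^ s := by rw [hq]; ring
    exact Nat.le_of_mul_le_mul_left h1 (by omega)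
  have hv4 : 2 * v ≤ 2 ^ s := by
    have h1 : 2 ^ s / (2 * (p + 1)) ≤ 2 ^ s / 8 := Nat.div_le_div_left (by omega) (by norm_num)
    rw [hv]
    rw [hw] at h1 ⊢
    omega
  obtain ⟨u, hu⟩ : ∃ u, 2 * v * q = 4 * u := ⟨v * (q / 2), by
    have : q = 2 * (q / 2) := by omega
    conv_lhs => rw [this]
    ring⟩
  -- β = w - u
  have huw : u ≤ w := by omega
  have hβ : w - u ≤ 2 * v := by
    have h1 : 2 * v * (p + 1) = 2 * v * q + 4 * (2 * v) := by rw [hq]; ring
    omega
  -- the classes: a = 2^s - 2v, β = w - u, γ = 2v - (w-u)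
  have hP := three_classes s (2 ^ s - 2 * v) (w - u) (2 * v - (w - u)) (by omega)
  have hε : ch p (-1) = 1 ∨ ch p (-1) = -1 := by
    rcases ch_tern p (-1) with h1 | h1
    · exfalso
      have h2 := ch_sq p (x := -1) (by simp)
      rw [h1] at h2
      norm_num at h2
    · exact h1
  set T : Matrix (ZMod p) (ZMod p) ℤ := Jm p - (2 : ℤ) • (1 : Matrix (ZMod p) (ZMod p) ℤ) with hT
  have hTt : Tᵀ = T := by
    rw [hT, transpose_sub, J_transpose, transpose_smul, transpose_one]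
  have hJQ : Jm p * Qm p = 0 := by
    have h1 := J_Q p hp
    rw [Qm_transpose, Matrix.mul_smul] at h1
    rcases hε with h2 | h2
    · rw [h2, one_smul] at h1; exact h1
    · rw [h2, neg_smul, one_smul, neg_eq_zero] at h1; exact h1
  have hTQ : T * Qm p = -((2 : ℤ) • Qm p) := by
    rw [hT, Matrix.sub_mul, hJQ, Matrix.smul_mul, Matrix.one_mul, zero_sub]
  have hQT : Qm p * T = -((2 : ℤ) • Qm p) := by
    rw [hT, Matrix.mul_sub, Qm_J p hp, Matrix.mul_smul, Matrix.mul_one, zero_sub]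
  have hJT : Jm p * T = ((p : ℤ) - 2) • Jm p := by
    rw [hT, Matrix.mul_sub, J_J, Matrix.mul_smul, Matrix.mul_one]; module
  have hTJ : T * Jm p = ((p : ℤ) - 2) • Jm p := by
    rw [hT, Matrix.sub_mul, J_J, Matrix.smul_mul, Matrix.one_mul]; module
  have hTT : T * T = ((p : ℤ) - 4) • Jm p + (4 : ℤ) • (1 : Matrix (ZMod p) (ZMod p) ℤ) := by
    nth_rewrite 1 [hT]
    rw [Matrix.sub_mul, hJT, Matrix.smul_mul, Matrix.one_mul, hT]
    module
  have hcard : Fintype.card (ZMod p ⊕ ZMod p) = 2 * p := by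
    rw [Fintype.card_sum, ZMod.card]; ring
  have key := comb3 (k := 2 ^ (s + 1) * p) hP (bC (Qm p) (ch p (-1))) (bY (Jm p)) (bY T) ?_ ?_ ?_
    (bY_bC (Qm p) (Jm p) 0 _ hε (Qm_transpose p) (J_transpose p) hJQ (Qm_J p hp))
    (bY_bC (Qm p) T _ _ hε (Qm_transpose p) hTt hTQ hQT)
    (by rw [bY_bY T (Jm p) _ hTt (J_transpose p) hTJ, bY_bY (Jm p) T _ (J_transpose p) hTt hJT])
    ?_
  · rw [hcard] at key
    convert key using 1
    ring
  · rintro (i | i) (j | j)
    · show Tern ((1 - Qm p : Matrix (ZMod p) (ZMod p) ℤ) i j)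
      rw [Matrix.sub_apply]
      by_cases hij : i = j
      · subst hij; rw [Matrix.one_apply_eq, Qm_diag, sub_zero]; exact Tern.one
      · rw [Matrix.one_apply_ne hij, zero_sub]; exact (Qm_tern p i j).neg
    · show Tern ((Qm p + 1 : Matrix (ZMod p) (ZMod p) ℤ) i j)
      rw [Matrix.add_apply]
      by_cases hij : i = j
      · subst hij; rw [Matrix.one_apply_eq, Qm_diag, zero_add]; exact Tern.one
      · rw [Matrix.one_apply_ne hij, add_zero]; exact Qm_tern p i j
    · show Tern ((ch p (-1) • Qm p + 1 : Matrix (ZMod p) (ZMod p) ℤ) i j)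
      rw [Matrix.add_apply, Matrix.smul_apply, smul_eq_mul]
      by_cases hij : i = j
      · subst hij; rw [Matrix.one_apply_eq, Qm_diag, mul_zero, zero_add]; exact Tern.one
      · rw [Matrix.one_apply_ne hij, add_zero]; exact (ch_tern p _).mul (Qm_tern p i j)
    · show Tern ((ch p (-1) • Qm p - 1 : Matrix (ZMod p) (ZMod p) ℤ) i j)
      rw [Matrix.sub_apply, Matrix.smul_apply, smul_eq_mul]
      by_cases hij : i = j
      · subst hij; rw [Matrix.one_apply_eq, Qm_diag, mul_zero, zero_sub]; exact Tern.one.neg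
      · rw [Matrix.one_apply_ne hij, sub_zero]; exact (ch_tern p _).mul (Qm_tern p i j)
  · rintro (i | i) (j | j)
    · exact Tern.one
    · exact Tern.one
    · exact Tern.one.neg
    · exact Tern.one
  · have hTT : ∀ i j, Tern (T i j) := by
      intro i j
      rw [hT, Matrix.sub_apply, Matrix.smul_apply]
      show Tern (1 - (2 : ℤ) • (1 : Matrix (ZMod p) (ZMod p) ℤ) i j)
      by_cases hij : i = j
      · subst hij; rw [Matrix.one_apply_eq]; norm_num; exact Tern.one.neg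
      · rw [Matrix.one_apply_ne hij]; norm_num; exact Tern.one
    rintro (i | i) (j | j)
    · exact hTT _ _
    · exact hTT _ _
    · exact (hTT _ _).neg
    · exact hTT _ _
  · rw [bC_bC (Qm p) (Jm p) _ (p : ℤ) hε (Qm_transpose p) (Qm_gram p hp),
      bY_bY (Jm p) (Jm p) _ (J_transpose p) (J_transpose p) (J_J p),
      bY_bY T T _ hTt hTt hTT, smul_one_blocks, fromBlocks_smul, fromBlocks_smul, fromBlocks_smul,
      fromBlocks_add, fromBlocks_add]
    have ca : ((2 ^ s - 2 * v : ℕ) : ℤ) = 2 ^ s - 2 * v := by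
      rw [Nat.cast_sub hv4]; push_cast; ring
    have cb : ((w - u : ℕ) : ℤ) = w - u := by
      rw [Nat.cast_sub huw]
    have cc : ((2 * v - (w - u) : ℕ) : ℤ) = 2 * v - (w - u) := by
      rw [Nat.cast_sub hβ, Nat.cast_sub huw]; push_cast; ring
    have hwz : (2 : ℤ) ^ s = 4 * w := by exact_mod_cast hw
    have huz : 2 * (v : ℤ) * ((p : ℤ) - 3) = 4 * u := by
      have h1 : (2 * (v : ℤ) * q) = 4 * u := by exact_mod_cast hu
      have h2 : (p : ℤ) = q + 3 := by rw [hq]; push_cast; ring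
      rw [h2]; linarith
    have e1 : ((2 ^ s - 2 * v : ℕ) : ℤ) • ((2 * ((p : ℤ) + 1)) • (1 : Matrix (ZMod p) (ZMod p) ℤ) -
        (2 : ℤ) • Jm p) + ((w - u : ℕ) : ℤ) • ((2 : ℤ) • ((p : ℤ) • Jm p)) +
        ((2 * v - (w - u) : ℕ) : ℤ) • ((2 : ℤ) • (((p : ℤ) - 4) • Jm p +
          (4 : ℤ) • (1 : Matrix (ZMod p) (ZMod p) ℤ))) =
        ((2 ^ (s + 1) * p : ℕ) : ℤ) • (1 : Matrix (ZMod p) (ZMod p) ℤ) := by
      rw [ca, cb, cc]
      have g1 : ((2 ^ (s + 1) * p : ℕ) : ℤ) = 2 * (2 ^ s - 2 * v) * (p + 1) +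
          8 * (2 * v - (w - u)) := by
        push_cast
        rw [pow_succ, hwz]
        linear_combination 2 * huz
      have g2 : (0 : ℤ) = -2 * (2 ^ s - 2 * v) + 2 * p * (w - u) +
          2 * (p - 4) * (2 * v - (w - u)) := by
        rw [hwz]
        linear_combination (-2) * huz
      rw [g1]
      have g3 : (((2 : ℤ) ^ s - 2 * v) • ((2 * ((p : ℤ) + 1)) • (1 : Matrix (ZMod p) (ZMod p) ℤ) -
          (2 : ℤ) • Jm p) + ((w : ℤ) - u) • ((2 : ℤ) • ((p : ℤ) • Jm p)) +
          (2 * (v : ℤ) - (w - u)) • ((2 : ℤ) • (((p : ℤ) - 4) • Jm p +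
            (4 : ℤ) • (1 : Matrix (ZMod p) (ZMod p) ℤ)))) =
          (2 * (2 ^ s - 2 * v) * ((p : ℤ) + 1) + 8 * (2 * v - (w - u))) •
            (1 : Matrix (ZMod p) (ZMod p) ℤ) +
          (-2 * (2 ^ s - 2 * v) + 2 * (p : ℤ) * (w - u) +
            2 * ((p : ℤ) - 4) * (2 * v - (w - u))) • Jm p := by
        module
      rw [g3, ← g2, zero_smul, add_zero]
    rw [e1]
    simp

/-- **Hadamard matrices of order `2^s m`**, `m^3 ≤ 2^s`. -/
theorem had_all : ∀ m : ℕ, 1 ≤ m → ∀ s : ℕ, m ^ 3 ≤ 2 ^ s → HasW (2 ^ s * m) (2 ^ s * m) := by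
  intro m
  induction m using Nat.strong_induction_on with
  | _ m ih =>
    intro hm s hs
    rcases Nat.lt_or_ge 1 m with hm1 | hm1
    · rcases Nat.mod_two_eq_zero_or_one m with h2 | h2
      · -- even
        have h3 : m = 2 * (m / 2) := by omega
        have h4 := ih (m / 2) (by omega) (by omega) (s + 1) (by
          refine le_trans ?_ (le_trans hs (Nat.pow_le_pow_right (by norm_num) (by omega)))
          exact Nat.pow_le_pow_left (by omega) 3)
        have h5 : 2 ^ (s + 1) * (m / 2) = 2 ^ s * m := by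
          conv_rhs => rw [h3]
          rw [pow_succ]; ring
        rwa [h5] at h4
      · -- odd
        have hmf := Nat.minFac_prime (show m ≠ 1 by omega)
        set p := m.minFac with hp
        haveI : Fact p.Prime := ⟨hmf⟩
        obtain ⟨m', hm'⟩ := Nat.minFac_dvd m
        rw [← hp] at hm'
        have hp2 : p ≠ 2 := by
          intro h3
          rw [h3] at hm'
          omega
        have hp3 : 3 ≤ p := by
          have := hmf.two_le
          omega
        have hm'0 : 1 ≤ m' := by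
          rcases Nat.eq_zero_or_pos m' with h3 | h3
          · rw [h3] at hm'; omega
          · exact h3
        have hm'lt : m' < m := by
          rw [hm']
          nlinarith
        -- the exponent for p
        obtain ⟨s1, hs1, hs2, hs3⟩ : ∃ s1 : ℕ, 3 ≤ s1 ∧ (p + 1) * (p - 3) ≤ 2 ^ s1 ∧
            2 ^ s1 ≤ p ^ 3 := by
          rcases Nat.lt_or_ge 3 p with h5 | h5
          · have hx : 5 ≤ p := by
              rcases hmf.eq_two_or_odd with h6 | h6 <;> omega
            obtain ⟨q, hq⟩ : ∃ q, p = q + 5 := ⟨p - 5, by omega⟩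
            have hx1 : (p + 1) * (p - 3) = (q + 6) * (q + 2) := by
              rw [hq]
              congr 1
            refine ⟨Nat.clog 2 ((p + 1) * (p - 3)), ?_, Nat.le_pow_clog (by norm_num) _, ?_⟩
            · by_contra hcon
              push Not at hcon
              have h7 := Nat.le_pow_clog (b := 2) (by norm_num) ((p + 1) * (p - 3))
              have h8 : 2 ^ Nat.clog 2 ((p + 1) * (p - 3)) ≤ 2 ^ 2 :=
                Nat.pow_le_pow_right (by norm_num) (by omega)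
              rw [hx1] at h7 h8
              nlinarith
            · have h7 := Nat.pow_pred_clog_lt_self (b := 2) (by norm_num)
                (x := (p + 1) * (p - 3)) (by rw [hx1]; nlinarith)
              have h8 : 1 ≤ Nat.clog 2 ((p + 1) * (p - 3)) := by
                rw [hx1]
                exact Nat.clog_pos (by norm_num) (by nlinarith)
              have h9 : 2 ^ Nat.clog 2 ((p + 1) * (p - 3)) =
                  2 * 2 ^ (Nat.clog 2 ((p + 1) * (p - 3)) - 1) := by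
                rw [← pow_succ']
                congr 1
                omega
              rw [h9]
              have h10 : 2 ^ (Nat.clog 2 ((p + 1) * (p - 3)) - 1) < (p + 1) * (p - 3) := h7
              have h11 : 2 * ((p + 1) * (p - 3)) ≤ p ^ 3 := by
                rw [hx1, hq]
                nlinarith [sq_nonneg (q : ℤ)]
              omega
          · have h6 : p = 3 := by omega
            rw [h6]
            exact ⟨3, le_rfl, by norm_num, by norm_num⟩
        have hle : s1 ≤ s := by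
          have h4 : 2 ^ s1 ≤ 2 ^ s := by
            refine hs3.trans (le_trans ?_ hs)
            exact Nat.pow_le_pow_left (by rw [hm']; nlinarith) 3
          exact (Nat.pow_le_pow_iff_right (by norm_num)).mp h4
        have hs' : s = s1 + (s - s1) := by omega
        have h5 : m' ^ 3 ≤ 2 ^ (s - s1) := by
          have h6 : p ^ 3 * m' ^ 3 ≤ p ^ 3 * 2 ^ (s - s1) := by
            calc p ^ 3 * m' ^ 3 = m ^ 3 := by rw [hm']; ring
              _ ≤ 2 ^ s := hs
              _ = 2 ^ s1 * 2 ^ (s - s1) := by rw [← pow_add, ← hs']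
              _ ≤ p ^ 3 * 2 ^ (s - s1) := Nat.mul_le_mul_right _ hs3
          exact Nat.le_of_mul_le_mul_left h6 (by positivity)
        have h7 := ih m' hm'lt hm'0 (s - s1) h5
        have h8 := had_prime p hp2 (s1 - 1) (by omega) (by
          rw [← pow_succ']
          have : s1 - 1 + 1 = s1 := by omega
          rw [this]; exact hs2)
        have h9 : s1 - 1 + 1 = s1 := by omega
        rw [h9] at h8
        have h10 := HasW.kron h8 h7
        have h11 : 2 ^ s1 * p * (2 ^ (s - s1) * m') = 2 ^ s * m := by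
          conv_rhs => rw [hs', pow_add, hm']
          ring
        rwa [h11] at h10
    · have h1 : m = 1 := by omega
      subst h1
      simpa using hasW_two_pow s (2 ^ s) le_rfl

end Pool.Agent.Lib.MP_be2ccc_co.NF
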