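import Pool.Agent.Lib.MP_be2ccc_co.NF.Near
import Pool.Agent.Lib.MP_be2ccc_co.NF.Had

/-!
# Weighing matrices of nearly all weights in the orders `2^t m`
-/

set_option autoImplicit false
set_option linter.unusedSimpArgs false
set_option linter.unusedSectionVars false

namespace Pool.Agent.Lib.MP_be2ccc_co.NF

open Matrix Kronecker
open Pool.Agent.Lib.MP_be2ccc_co

/-- the weights `a w + b` -/
theorem near_comb (h g r a b : ℕ) (hH : HasW h h) (hab : a + b ≤ 2 ^ r) :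
    HasW (2 ^ r * (4 * 8 ^ g * h)) (a * (4 * 4 ^ g * (2 ^ g - 1) * h) + b) := by
  obtain ⟨H, hT, hHH⟩ := hH
  obtain ⟨ι, i1, i2, N, hc, hN, hNt, hNN⟩ := near g h (Fin h) H hT hHH
  have hP := three_classes r a b (2 ^ r - a - b) (by omega)
  have h1 := comb hP N (1 : Matrix ι ι ℤ) (4 * 4 ^ g * (2 ^ g - 1) * h) 1 hN
    (fun i j => by rw [Matrix.one_apply]; exact Tern.ite Tern.one Tern.zero) hNN (by simp)
    (by rw [Matrix.one_mul, transpose_one, Matrix.mul_one, hNt])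
  rw [hc, Fintype.card_fin, mul_one] at h1
  exact h1

/-- **Nearly all weights** in the orders `2^R h`, for the order `h` of a Hadamard matrix. -/
theorem cover (h R k : ℕ) (hH : HasW h h) (hk : k ≤ 2 ^ R * h)
    (hL : 18 ^ 7 * h ^ 2 * (2 ^ R * h) ^ 6 ≤ (2 ^ R * h - k) ^ 7) : HasW (2 ^ R * h) k := by
  rcases Nat.eq_zero_or_pos h with h0 | h0
  · subst h0
    rw [mul_zero]
    exact hasW_zero_order k
  set n := 2 ^ R * h with hn
  have hn0 : 0 < n := by positivity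
  set L := n - k with hLdef
  have hLn : L ≤ n := by omega
  have h1 : 18 ^ 7 * h ^ 2 ≤ n := by
    have h2 : 18 ^ 7 * h ^ 2 * n ^ 6 ≤ n * n ^ 6 := by
      calc 18 ^ 7 * h ^ 2 * n ^ 6 ≤ L ^ 7 := hL
        _ ≤ n ^ 7 := Nat.pow_le_pow_left hLn 7
        _ = n * n ^ 6 := by ring
    exact Nat.le_of_mul_le_mul_right h2 (by positivity)
  set g := Nat.log 128 (n / h ^ 2) with hg
  have hdiv : 18 ^ 7 ≤ n / h ^ 2 := by
    rw [Nat.le_div_iff_mul_le (by positivity)]; exact h1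
  have hg1 : 128 ^ g ≤ n / h ^ 2 := Nat.pow_log_le_self 128 (by omega)
  have hg2 : n / h ^ 2 < 128 ^ (g + 1) := Nat.lt_pow_succ_log_self (by norm_num) _
  have hg3 : 1 ≤ g := by
    rw [hg]
    exact Nat.log_pos (by norm_num) (le_trans (by norm_num) hdiv)
  set q := 2 ^ g with hq
  have hq2 : 2 ≤ q := by
    rw [hq]
    calc 2 = 2 ^ 1 := by norm_num
      _ ≤ 2 ^ g := Nat.pow_le_pow_right (by norm_num) hg3
  have hq7 : 128 ^ g = q ^ 7 := by
    rw [hq, ← pow_mul, mul_comm, pow_mul]; norm_num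
  have e1 : q ^ 7 * h ^ 2 ≤ n := by
    rw [← hq7]
    exact (Nat.le_div_iff_mul_le (by positivity)).mp hg1
  have e2 : n < 128 * q ^ 7 * h ^ 2 := by
    have h3 := (Nat.div_lt_iff_lt_mul (show 0 < h ^ 2 by positivity)).mp hg2
    rw [pow_succ, hq7] at h3
    calc n < q ^ 7 * 128 * h ^ 2 := h3
      _ = 128 * q ^ 7 * h ^ 2 := by ring
  -- the two inequalities
  have e3 : 9 * n ≤ L * q := by
    rw [← Nat.pow_le_pow_iff_left (show 7 ≠ 0 by norm_num)]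
    calc (9 * n) ^ 7 = 9 ^ 7 * n ^ 6 * n := by ring
      _ ≤ 9 ^ 7 * n ^ 6 * (128 * q ^ 7 * h ^ 2) := Nat.mul_le_mul_left _ e2.le
      _ = (18 ^ 7 * h ^ 2 * n ^ 6) * q ^ 7 := by ring
      _ ≤ L ^ 7 * q ^ 7 := Nat.mul_le_mul_right _ hL
      _ = (L * q) ^ 7 := by ring
  have e4 : 18 * q ^ 6 * h ^ 2 ≤ L := by
    rw [← Nat.pow_le_pow_iff_left (show 7 ≠ 0 by norm_num)]
    calc (18 * q ^ 6 * h ^ 2) ^ 7 = 18 ^ 7 * h ^ 2 * (q ^ 7 * h ^ 2) ^ 6 := by ring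
      _ ≤ 18 ^ 7 * h ^ 2 * n ^ 6 := by
          apply Nat.mul_le_mul_left
          exact Nat.pow_le_pow_left e1 6
      _ ≤ L ^ 7 := hL
  -- the exponent
  have e5 : 4 * q ^ 3 ≤ 2 ^ R := by
    have h3 : q ^ 7 * h ≤ 2 ^ R := by
      have h4 : q ^ 7 * h * h ≤ 2 ^ R * h := by
        calc q ^ 7 * h * h = q ^ 7 * h ^ 2 := by ring
          _ ≤ 2 ^ R * h := e1
      exact Nat.le_of_mul_le_mul_right h4 h0
    calc 4 * q ^ 3 ≤ q ^ 4 * q ^ 3 := by
          apply Nat.mul_le_mul_right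
          calc 4 ≤ 2 ^ 4 := by norm_num
            _ ≤ q ^ 4 := Nat.pow_le_pow_left hq2 4
      _ = q ^ 7 * 1 := by ring
      _ ≤ q ^ 7 * h := Nat.mul_le_mul_left _ h0
      _ ≤ 2 ^ R := h3
  have e6 : 4 * q ^ 3 = 2 ^ (2 + 3 * g) := by
    rw [hq, pow_add, mul_comm 3 g, pow_mul]; norm_num
  have e7 : 2 + 3 * g ≤ R := by
    rw [e6] at e5
    exact (Nat.pow_le_pow_iff_right (by norm_num)).mp e5
  obtain ⟨r, hr⟩ : ∃ r, R = r + (2 + 3 * g) := ⟨R - (2 + 3 * g), by omega⟩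
  have e8 : 8 ^ g = q ^ 3 := by
    rw [hq, ← pow_mul, mul_comm, pow_mul]; norm_num
  have e9 : 4 ^ g = q ^ 2 := by
    rw [hq, ← pow_mul, mul_comm, pow_mul]; norm_num
  have e10 : n = 2 ^ r * (4 * q ^ 3 * h) := by
    rw [hn, hr, pow_add, ← e6]; ring
  obtain ⟨q', hq'⟩ : ∃ q', q = q' + 1 := ⟨q - 1, by omega⟩
  have hq'0 : 0 < q' := by omega
  set w := 4 * q ^ 2 * q' * h with hw
  have hw0 : 0 < w := by positivity
  have hdm := Nat.div_add_mod k w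
  have hml := Nat.mod_lt k hw0
  have key : k / w + k % w ≤ 2 ^ r := by
    by_contra hcon
    push Not at hcon
    have f1 : 2 ^ r + 1 ≤ k / w + w := by omega
    have f2 : 2 ^ r * w ≤ k + w ^ 2 := by
      calc 2 ^ r * w ≤ (k / w + w) * w := Nat.mul_le_mul_right _ (by omega)
        _ = w * (k / w) + w ^ 2 := by ring
        _ ≤ k + w ^ 2 := by omega
    -- n = 2^r w + 2^r 4 q^2 h
    have f3 : n = 2 ^ r * w + 2 ^ r * (4 * q ^ 2 * h) := by
      rw [e10, hw, hq']; ring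
    have f4 : L ≤ 2 ^ r * (4 * q ^ 2 * h) + w ^ 2 := by omega
    have f5 : 9 * (2 ^ r * (4 * q ^ 2 * h)) ≤ L := by
      have h3 : 9 * (2 ^ r * (4 * q ^ 2 * h)) * q ≤ L * q := by
        calc 9 * (2 ^ r * (4 * q ^ 2 * h)) * q = 9 * n := by rw [e10]; ring
          _ ≤ L * q := e3
      exact Nat.le_of_mul_le_mul_right h3 (by omega)
    have f6 : w ^ 2 < 16 * q ^ 6 * h ^ 2 := by
      have h3 : w < 4 * q ^ 3 * h := by
        rw [hw]
        calc 4 * q ^ 2 * q' * h < 4 * q ^ 2 * q * h := by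
              apply Nat.mul_lt_mul_of_pos_right _ h0
              apply Nat.mul_lt_mul_of_pos_left (by omega) (by positivity)
          _ = 4 * q ^ 3 * h := by ring
      calc w ^ 2 < (4 * q ^ 3 * h) ^ 2 := Nat.pow_lt_pow_left h3 (by norm_num)
        _ = 16 * q ^ 6 * h ^ 2 := by ring
    have f7 : 16 * (18 * q ^ 6 * h ^ 2) ≤ 16 * L := Nat.mul_le_mul_left _ e4
    have f8 : 18 * (16 * q ^ 6 * h ^ 2) ≤ 16 * L := by
      calc 18 * (16 * q ^ 6 * h ^ 2) = 16 * (18 * q ^ 6 * h ^ 2) := by ring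
        _ ≤ 16 * L := f7
    omega
  have h3 := near_comb h g r (k / w) (k % w) hH key
  have h4 : 2 ^ r * (4 * 8 ^ g * h) = n := by rw [e8, e10]
  have h5 : k / w * (4 * 4 ^ g * (2 ^ g - 1) * h) + k % w = k := by
    have h6 : 2 ^ g - 1 = q' := by rw [← hq, hq']; rfl
    rw [e9, h6, ← hw, mul_comm]
    exact hdm
  rw [h4, h5] at h3
  exact h3

/-- **All odd parts.** -/
theorem near_full (m t k : ℕ) (hm : 1 ≤ m) (hk : k ≤ 2 ^ t * m)
    (hL : 4 * 18 ^ 7 * m ^ 8 * (2 ^ t * m) ^ 6 ≤ (2 ^ t * m - k) ^ 7) : HasW (2 ^ t * m) k := by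
  set n := 2 ^ t * m with hn
  have hn0 : 0 < n := by positivity
  have h1 : 4 * 18 ^ 7 * m ^ 8 ≤ n := by
    have h2 : 4 * 18 ^ 7 * m ^ 8 * n ^ 6 ≤ n * n ^ 6 := by
      calc 4 * 18 ^ 7 * m ^ 8 * n ^ 6 ≤ (n - k) ^ 7 := hL
        _ ≤ n ^ 7 := Nat.pow_le_pow_left (by omega) 7
        _ = n * n ^ 6 := by ring
    exact Nat.le_of_mul_le_mul_right h2 (by positivity)
  -- the exponent s
  obtain ⟨s, hs1, hs2⟩ : ∃ s, m ^ 3 ≤ 2 ^ s ∧ 2 ^ s ≤ 2 * m ^ 3 := by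
    rcases Nat.lt_or_ge 1 m with h3 | h3
    · have h4 : 1 < m ^ 3 := Nat.one_lt_pow (by norm_num) h3
      refine ⟨Nat.clog 2 (m ^ 3), Nat.le_pow_clog (by norm_num) _, ?_⟩
      have h5 := Nat.pow_pred_clog_lt_self (b := 2) (by norm_num) h4
      have h6 : 1 ≤ Nat.clog 2 (m ^ 3) := Nat.clog_pos (by norm_num) h4
      have h7 : 2 ^ Nat.clog 2 (m ^ 3) = 2 * 2 ^ (Nat.clog 2 (m ^ 3) - 1) := by
        rw [← pow_succ']
        congr 1
        omega
      rw [h7]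
      have h8 : 2 ^ (Nat.clog 2 (m ^ 3) - 1) < m ^ 3 := h5
      omega
    · have : m = 1 := by omega
      subst this
      exact ⟨0, by norm_num, by norm_num⟩
  have hm3 : m ^ 3 ≤ m ^ 7 := Nat.pow_le_pow_right hm (by norm_num)
  have hst : s ≤ t := by
    have h3 : 4 * 18 ^ 7 * m ^ 7 ≤ 2 ^ t := by
      have h4 : 4 * 18 ^ 7 * m ^ 7 * m ≤ 2 ^ t * m := by
        calc 4 * 18 ^ 7 * m ^ 7 * m = 4 * 18 ^ 7 * m ^ 8 := by ring
          _ ≤ 2 ^ t * m := h1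
      exact Nat.le_of_mul_le_mul_right h4 hm
    have h4 : 2 ^ s ≤ 2 ^ t := by
      calc 2 ^ s ≤ 2 * m ^ 3 := hs2
        _ ≤ 4 * 18 ^ 7 * m ^ 7 := by nlinarith
        _ ≤ 2 ^ t := h3
    exact (Nat.pow_le_pow_iff_right (by norm_num)).mp h4
  have hH := had_all m hm s hs1
  have hnn : 2 ^ (t - s) * (2 ^ s * m) = n := by
    rw [← mul_assoc, ← pow_add, hn]
    congr 2
    omega
  have hh : (2 ^ s * m) ^ 2 ≤ 4 * m ^ 8 := by
    calc (2 ^ s * m) ^ 2 ≤ (2 * m ^ 3 * m) ^ 2 :=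
          Nat.pow_le_pow_left (Nat.mul_le_mul_right _ hs2) 2
      _ = 4 * m ^ 8 := by ring
  have h3 := cover (2 ^ s * m) (t - s) k hH (by rw [hnn]; exact hk) (by
    rw [hnn]
    calc 18 ^ 7 * (2 ^ s * m) ^ 2 * n ^ 6 ≤ 18 ^ 7 * (4 * m ^ 8) * n ^ 6 :=
          Nat.mul_le_mul_right _ (Nat.mul_le_mul_left _ hh)
      _ = 4 * 18 ^ 7 * m ^ 8 * n ^ 6 := by ring
      _ ≤ (n - k) ^ 7 := hL)
  rw [hnn] at h3
  exact h3

/-- the top interval from a skew conference matrix -/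
theorem top (h r b : ℕ) (h1 : 1 ≤ h) (K : Matrix (Fin h) (Fin h) ℤ) (hT : ∀ i j, Tern (K i j))
    (hKt : Kᵀ = -K) (hKK : K * Kᵀ = ((h : ℤ) - 1) • (1 : Matrix (Fin h) (Fin h) ℤ))
    (hb : b ≤ 2 ^ r) : HasW (2 ^ r * h) (2 ^ r * (h - 1) + b) := by
  obtain ⟨ι, i1, i2, F, hc, hF, hFs, hFF, hZ⟩ := sylvester r
  obtain ⟨Z, hZT, hZZ, hZF⟩ := hZ b hb
  have hKd : ∀ i, K i i = 0 := by
    intro i
    have h2 := congrFun (congrFun hKt i) i
    rw [transpose_apply, Matrix.neg_apply] at h2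
    omega
  refine HasWI.hasW (ι := ι × Fin h) (by rw [Fintype.card_prod, hc, Fintype.card_fin])
    ⟨F ⊗ₖ K + Z ⊗ₖ 1, ?_, ?_⟩
  · rintro ⟨i, k⟩ ⟨j, l⟩
    rw [Matrix.add_apply, kroneckerMap_apply, kroneckerMap_apply]
    by_cases hkl : k = l
    · subst hkl
      rw [hKd, mul_zero, zero_add, Matrix.one_apply_eq, mul_one]
      exact hZT _ _
    · rw [Matrix.one_apply_ne hkl, mul_zero, add_zero]
      exact (hF _ _).mul (hT _ _)
  · have t1 : (F ⊗ₖ K)ᵀ = -(F ⊗ₖ K) := by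
      rw [← kroneckerMap_transpose, hFs, hKt]
      ext ⟨i, k⟩ ⟨j, l⟩
      simp [kroneckerMap_apply]
    have t2 : (Z ⊗ₖ (1 : Matrix (Fin h) (Fin h) ℤ))ᵀ = Zᵀ ⊗ₖ (1 : Matrix (Fin h) (Fin h) ℤ) := by
      rw [← kroneckerMap_transpose, transpose_one]
    have hKK' : K * K = -(((h : ℤ) - 1) • (1 : Matrix (Fin h) (Fin h) ℤ)) := by
      rw [← hKK, hKt, Matrix.mul_neg, neg_neg]
    rw [transpose_add, t1, t2, Matrix.add_mul, Matrix.mul_add, Matrix.mul_add, Matrix.mul_neg,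
      Matrix.mul_neg, ← Matrix.mul_kronecker_mul, ← Matrix.mul_kronecker_mul,
      ← Matrix.mul_kronecker_mul, ← Matrix.mul_kronecker_mul, Matrix.mul_one, Matrix.one_mul,
      Matrix.one_mul, hFF, hZZ, hZF, hKK']
    have e2 : ∀ u v : ℤ, (u • (1 : Matrix ι ι ℤ)) ⊗ₖ (v • (1 : Matrix (Fin h) (Fin h) ℤ)) =
        (u * v) • (1 : Matrix (ι × Fin h) (ι × Fin h) ℤ) := by
      intro u v
      rw [Matrix.smul_kronecker, Matrix.kronecker_smul, Matrix.one_kronecker_one, smul_smul]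
    have e3 := e2 ((2 ^ r : ℕ) : ℤ) (-((h : ℤ) - 1))
    have e4 := e2 (b : ℤ) 1
    rw [neg_smul] at e3
    rw [one_smul] at e4
    rw [e3, e4]
    have e5 : ((2 ^ r * (h - 1) + b : ℕ) : ℤ) = 2 ^ r * ((h : ℤ) - 1) + b := by
      push_cast [Nat.cast_sub h1]
      ring
    rw [e5]
    push_cast
    module

/-- **All weights** in the orders `2^r h`, `2^r ≥ 18^7 h^8`, for the order `h` of a skew Hadamard
matrix. -/
theorem skew_all (h r k : ℕ) (K : Matrix (Fin h) (Fin h) ℤ)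
    (hK : ∀ i j, i ≠ j → K i j = 1 ∨ K i j = -1)
    (hKt : Kᵀ = -K) (hKK : K * Kᵀ = ((h : ℤ) - 1) • (1 : Matrix (Fin h) (Fin h) ℤ))
    (hr : 18 ^ 7 * h ^ 8 ≤ 2 ^ r) (hk : k ≤ 2 ^ r * h) : HasW (2 ^ r * h) k := by
  rcases Nat.eq_zero_or_pos h with h0 | h0
  · subst h0
    rw [mul_zero]
    exact hasW_zero_order k
  have hKd : ∀ i, K i i = 0 := by
    intro i
    have h2 := congrFun (congrFun hKt i) i
    rw [transpose_apply, Matrix.neg_apply] at h2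
    omega
  have hT : ∀ i j, Tern (K i j) := by
    intro i j
    by_cases hij : i = j
    · subst hij; rw [hKd]; exact Tern.zero
    · exact Or.inr (hK i j hij)
  rcases Nat.lt_or_ge (2 ^ r) (2 ^ r * h - k) with h1 | h1
  · -- Hadamard matrix 1 + K
    have hH : HasW h h := by
      refine ⟨1 + K, ?_, ?_⟩
      · intro i j
        rw [Matrix.add_apply]
        by_cases hij : i = j
        · subst hij; rw [hKd, Matrix.one_apply_eq, add_zero]; exact Tern.one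
        · rw [Matrix.one_apply_ne hij, zero_add]; exact hT i j
      · have hKK' : K * K = -(((h : ℤ) - 1) • (1 : Matrix (Fin h) (Fin h) ℤ)) := by
          rw [← hKK, hKt, Matrix.mul_neg, neg_neg]
        rw [transpose_add, transpose_one, hKt]
        simp only [Matrix.mul_add, Matrix.add_mul, Matrix.mul_one, Matrix.one_mul, Matrix.mul_neg,
          hKK']
        module
    refine cover h r k hH hk ?_
    calc 18 ^ 7 * h ^ 2 * (2 ^ r * h) ^ 6 = (18 ^ 7 * h ^ 8) * (2 ^ r) ^ 6 := by ring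
      _ ≤ 2 ^ r * (2 ^ r) ^ 6 := Nat.mul_le_mul_right _ hr
      _ = (2 ^ r) ^ 7 := by ring
      _ ≤ (2 ^ r * h - k) ^ 7 := Nat.pow_le_pow_left h1.le 7
  · obtain ⟨h', rfl⟩ : ∃ h', h = h' + 1 := ⟨h - 1, by omega⟩
    have h2 : 2 ^ r * (h' + 1) = 2 ^ r * h' + 2 ^ r := by ring
    have h3 := top (h' + 1) r (k - 2 ^ r * h') (by omega) K hT hKt hKK (by omega)
    have h4 : 2 ^ r * (h' + 1 - 1) + (k - 2 ^ r * h') = k := by
      rw [Nat.add_sub_cancel]; omega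
    rwa [h4] at h3

end Pool.Agent.Lib.MP_be2ccc_co.NF
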