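import Pool.Agent.Lib.MP_be2ccc_co.NF.Class

/-!
# Dense symmetric weighing matrices from an arbitrary Hadamard matrix

From `H` of order `h` with `H Hᵀ = h` (any matrix with entries `0, 1, -1` and `H Hᵀ = λ`) and
`q = 2^g`: a symmetric matrix of order `4 q^3 h` and weight `4 q^2 (q-1) λ`.
-/

set_option autoImplicit false
set_option linter.unusedSimpArgs false
set_option linter.unusedSectionVars false

namespace Pool.Agent.Lib.MP_be2ccc_co.NF

open Matrix Kronecker
open Pool.Agent.Lib.MP_be2ccc_co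

/-! ### rank one matrices -/

section rankone
variable {S P : Type} [Fintype S] [DecidableEq S] [Fintype P] [DecidableEq P]

/-- the rank one matrix of row `i` -/
def rk (E : Matrix S S ℤ) (i : S) : Matrix S S ℤ := Matrix.of fun s t => E i s * E i t

lemma rk_apply (E : Matrix S S ℤ) (i s t : S) : rk E i s t = E i s * E i t := rfl

lemma rk_transpose (E : Matrix S S ℤ) (i : S) : (rk E i)ᵀ = rk E i := by
  ext s t; simp [rk_apply, mul_comm]

lemma rk_mul (E : Matrix S S ℤ) (e : ℤ) (hE : E * Eᵀ = e • (1 : Matrix S S ℤ)) (i j : S) :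
    rk E i * rk E j = if i = j then e • rk E i else 0 := by
  have h1 : ∑ u, E i u * E j u = if i = j then e else 0 := by
    have h2 := congrFun (congrFun hE i) j
    rw [Matrix.mul_apply] at h2
    simp only [transpose_apply, Matrix.smul_apply, Matrix.one_apply, smul_eq_mul, mul_ite, mul_one,
      mul_zero] at h2
    exact h2
  ext s t
  rw [Matrix.mul_apply]
  simp only [rk_apply]
  have h3 : ∀ u, E i s * E i u * (E j u * E j t) = (E i u * E j u) * (E i s * E j t) := by
    intro u; ring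
  simp only [h3]
  rw [← Finset.sum_mul, h1]
  split_ifs with hij
  · subst hij
    simp [rk_apply]
  · simp

lemma rk_sum (E : Matrix S S ℤ) (e : ℤ) (hE : Eᵀ * E = e • (1 : Matrix S S ℤ)) (s t : S) :
    ∑ i, rk E i s t = (e • (1 : Matrix S S ℤ)) s t := by
  rw [← hE, Matrix.mul_apply]
  rfl

/-- the sum of the products -/
def big (E : Matrix S S ℤ) (L : S → Matrix P P ℤ) : Matrix (P × S) (P × S) ℤ :=
  ∑ i, L i ⊗ₖ rk E i

lemma big_apply (E : Matrix S S ℤ) (L : S → Matrix P P ℤ) (x y : P × S) :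
    big E L x y = ∑ i, L i x.1 y.1 * rk E i x.2 y.2 := by
  unfold big
  rw [Matrix.sum_apply]
  rfl

lemma big_transpose (E : Matrix S S ℤ) (L : S → Matrix P P ℤ) (hL : ∀ i, (L i)ᵀ = L i) :
    (big E L)ᵀ = big E L := by
  ext x y
  rw [transpose_apply, big_apply, big_apply]
  refine Finset.sum_congr rfl fun i _ => ?_
  have h1 : L i y.1 x.1 = L i x.1 y.1 := by
    conv_lhs => rw [← hL i]
    rfl
  have h2 : rk E i y.2 x.2 = rk E i x.2 y.2 := by
    conv_lhs => rw [← rk_transpose]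
    rfl
  rw [h1, h2]

lemma big_tern (E : Matrix S S ℤ) (L : S → Matrix P P ℤ) (hE : ∀ i j, Tern (E i j))
    (hL : ∀ i x y, Tern (L i x y)) (hd : ∀ i j x y, L i x y ≠ 0 → L j x y ≠ 0 → i = j)
    (x y : P × S) : Tern (big E L x y) := by
  rw [big_apply]
  by_cases h : ∃ i, L i x.1 y.1 ≠ 0
  · obtain ⟨i, hi⟩ := h
    rw [Finset.sum_eq_single i]
    · exact (hL _ _ _).mul ((hE _ _).mul (hE _ _))
    · intro j _ hj
      by_cases h0 : L j x.1 y.1 = 0
      · rw [h0, zero_mul]
      · exact absurd (hd j i _ _ h0 hi) hj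
    · intro h1
      exact absurd (Finset.mem_univ _) h1
  · push Not at h
    rw [Finset.sum_eq_zero fun i _ => by rw [h i, zero_mul]]
    exact Tern.zero

lemma big_gram (E : Matrix S S ℤ) (L : S → Matrix P P ℤ) (e m : ℤ)
    (hE : E * Eᵀ = e • (1 : Matrix S S ℤ)) (hE' : Eᵀ * E = e • (1 : Matrix S S ℤ))
    (hL : ∀ i, L i * (L i)ᵀ = m • (1 : Matrix P P ℤ)) :
    big E L * (big E L)ᵀ = (m * e * e) • (1 : Matrix (P × S) (P × S) ℤ) := by
  have h1 : big E L * (big E L)ᵀ = ∑ i, (m • (1 : Matrix P P ℤ)) ⊗ₖ (e • rk E i) := by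
    unfold big
    rw [Matrix.transpose_sum, Finset.sum_mul_sum]
    refine Finset.sum_congr rfl fun i _ => ?_
    have h2 : ∀ j, (L i ⊗ₖ rk E i) * (L j ⊗ₖ rk E j)ᵀ =
        if i = j then (m • (1 : Matrix P P ℤ)) ⊗ₖ (e • rk E i) else 0 := by
      intro j
      have t1 : (L j ⊗ₖ rk E j)ᵀ = (L j)ᵀ ⊗ₖ rk E j := by
        rw [← kroneckerMap_transpose, rk_transpose]
      rw [t1, ← Matrix.mul_kronecker_mul, rk_mul E e hE]
      split_ifs with hij
      · subst hij
        rw [hL]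
      · simp
    simp only [h2]
    rw [Finset.sum_ite_eq]
    simp
  rw [h1]
  ext x y
  rw [Matrix.sum_apply]
  have h3 : ∀ i, ((m • (1 : Matrix P P ℤ)) ⊗ₖ (e • rk E i)) x y =
      (m * (1 : Matrix P P ℤ) x.1 y.1 * e) * rk E i x.2 y.2 := by
    intro i
    rw [kroneckerMap_apply]
    simp only [Matrix.smul_apply, smul_eq_mul]
    ring
  simp only [h3]
  rw [← Finset.mul_sum, rk_sum E e hE']
  simp only [Matrix.smul_apply, smul_eq_mul, Matrix.one_apply, Prod.ext_iff]
  by_cases h4 : x.1 = y.1 <;> by_cases h5 : x.2 = y.2 <;> simp [h4, h5]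

end rankone

/-! ### the layers -/

section layers
variable {A U κ : Type} [AddCommGroup A] [Fintype A] [DecidableEq A] [Fintype U] [DecidableEq U]
  [Fintype κ] [DecidableEq κ]

/-- the block `F` or `Fᵀ` -/
def dd (ρ : A → ℕ) (F : Matrix (U × κ) (U × κ) ℤ) (a b : A) : Matrix (U × κ) (U × κ) ℤ :=
  if ρ a < ρ b then F else if ρ b < ρ a then Fᵀ else 0

/-- the layers -/
def lay (ρ : A → ℕ) (F : Matrix (U × κ) (U × κ) ℤ) (Λ : Matrix (A × κ) (A × κ) ℤ) (i : A) :
    Matrix (A × (U × κ)) (A × (U × κ)) ℤ :=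
  Matrix.of fun x y => if i = 0 then (if x.2.1 = y.2.1 then Λ (x.1, x.2.2) (y.1, y.2.2) else 0)
    else if x.1 + y.1 = i then dd ρ F x.1 y.1 x.2 y.2 else 0

lemma dd_transpose (ρ : A → ℕ) (F : Matrix (U × κ) (U × κ) ℤ) (a b : A) :
    (dd ρ F a b)ᵀ = dd ρ F b a := by
  unfold dd
  rcases lt_trichotomy (ρ a) (ρ b) with h | h | h
  · rw [if_pos h, if_neg (by omega), if_pos h]
  · rw [if_neg (by omega), if_neg (by omega), if_neg (by omega), if_neg (by omega)]
    simp
  · rw [if_neg (by omega), if_pos h, if_pos h]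
    simp

lemma dd_gram (ρ : A → ℕ) (hρ : Function.Injective ρ) (F : Matrix (U × κ) (U × κ) ℤ) (m : ℤ)
    (h1 : F * Fᵀ = m • (1 : Matrix (U × κ) (U × κ) ℤ))
    (h2 : Fᵀ * F = m • (1 : Matrix (U × κ) (U × κ) ℤ)) (a b : A) (hab : a ≠ b) :
    dd ρ F a b * (dd ρ F a b)ᵀ = m • (1 : Matrix (U × κ) (U × κ) ℤ) := by
  have h0 : ρ a ≠ ρ b := fun h => hab (hρ h)
  unfold dd
  rcases lt_or_gt_of_ne h0 with h | h
  · rw [if_pos h]; exact h1
  · rw [if_neg (by omega), if_pos h, transpose_transpose]; exact h2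

lemma lay_symm (ρ : A → ℕ) (F : Matrix (U × κ) (U × κ) ℤ) (Λ : Matrix (A × κ) (A × κ) ℤ)
    (hΛ : Λᵀ = Λ) (i : A) : (lay ρ F Λ i)ᵀ = lay ρ F Λ i := by
  ext x y
  simp only [lay, transpose_apply, Matrix.of_apply]
  split_ifs with h1 h2 h3 h4 h5 h6
  · have := congrFun (congrFun hΛ (x.1, x.2.2)) (y.1, y.2.2)
    rw [transpose_apply] at this
    exact this
  · exact absurd h2.symm h3
  · exact absurd h4.symm h2
  · rfl
  · have := congrFun (congrFun (dd_transpose ρ F x.1 y.1) y.2) x.2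
    rw [transpose_apply] at this
    exact this.symm
  · exact absurd (by rw [add_comm]; exact h5) h6
  · rename_i h7
    exact absurd (by rw [add_comm]; exact h7) h5
  · rfl

lemma lay_tern (ρ : A → ℕ) (F : Matrix (U × κ) (U × κ) ℤ) (Λ : Matrix (A × κ) (A × κ) ℤ)
    (hF : ∀ x y, Tern (F x y)) (hΛ : ∀ x y, Tern (Λ x y)) (i : A) (x y : A × (U × κ)) :
    Tern (lay ρ F Λ i x y) := by
  simp only [lay, Matrix.of_apply, dd]
  split_ifs
  · exact hΛ _ _
  · exact Tern.zero
  · exact hF _ _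
  · exact hF _ _
  · exact Tern.zero
  · exact Tern.zero

lemma lay_dis (ρ : A → ℕ) (F : Matrix (U × κ) (U × κ) ℤ) (Λ : Matrix (A × κ) (A × κ) ℤ)
    (hF : ∀ u x y, F (u, x) (u, y) = 0) (i j : A) (x y : A × (U × κ))
    (h1 : lay ρ F Λ i x y ≠ 0) (h2 : lay ρ F Λ j x y ≠ 0) : i = j := by
  have key : ∀ a b : A, ∀ x y : U × κ, x.1 = y.1 → dd ρ F a b x y = 0 := by
    rintro a b ⟨u, x⟩ ⟨v, y⟩ h
    simp only at h
    subst h
    unfold dd
    split_ifs
    · exact hF _ _ _
    · rw [transpose_apply]; exact hF _ _ _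
    · rfl
  simp only [lay, Matrix.of_apply] at h1 h2
  by_cases hi : i = 0 <;> by_cases hj : j = 0
  · rw [hi, hj]
  · rw [if_pos hi] at h1
    rw [if_neg hj] at h2
    exfalso
    have h3 : x.2.1 = y.2.1 := by
      by_contra h; rw [if_neg h] at h1; exact h1 rfl
    apply h2
    split_ifs
    · exact key _ _ _ _ h3
    · rfl
  · rw [if_neg hi] at h1
    rw [if_pos hj] at h2
    exfalso
    have h3 : x.2.1 = y.2.1 := by
      by_contra h; rw [if_neg h] at h2; exact h2 rfl
    apply h1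
    split_ifs
    · exact key _ _ _ _ h3
    · rfl
  · rw [if_neg hi] at h1
    rw [if_neg hj] at h2
    have h3 : x.1 + y.1 = i := by
      by_contra h; rw [if_neg h] at h1; exact h1 rfl
    have h4 : x.1 + y.1 = j := by
      by_contra h; rw [if_neg h] at h2; exact h2 rfl
    rw [← h3, h4]

lemma lay_gram (ρ : A → ℕ) (hρ : Function.Injective ρ) (h2A : ∀ a : A, a + a = 0)
    (F : Matrix (U × κ) (U × κ) ℤ) (Λ : Matrix (A × κ) (A × κ) ℤ) (m : ℤ)
    (h1 : F * Fᵀ = m • (1 : Matrix (U × κ) (U × κ) ℤ))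
    (h2 : Fᵀ * F = m • (1 : Matrix (U × κ) (U × κ) ℤ))
    (h3 : Λ * Λᵀ = m • (1 : Matrix (A × κ) (A × κ) ℤ)) (i : A) :
    lay ρ F Λ i * (lay ρ F Λ i)ᵀ = m • (1 : Matrix (A × (U × κ)) (A × (U × κ)) ℤ) := by
  ext x y
  rw [Matrix.mul_apply]
  simp only [transpose_apply]
  by_cases hi : i = 0
  · have e1 : ∀ z, lay ρ F Λ i x z * lay ρ F Λ i y z =
        if x.2.1 = y.2.1 then (if z.2.1 = x.2.1 then
          Λ (x.1, x.2.2) (z.1, z.2.2) * Λ (y.1, y.2.2) (z.1, z.2.2) else 0) else 0 := by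
      intro z
      simp only [lay, Matrix.of_apply, if_pos hi]
      by_cases ha : x.2.1 = z.2.1
      · by_cases hb : y.2.1 = z.2.1
        · rw [if_pos ha, if_pos hb, if_pos (ha.trans hb.symm), if_pos ha.symm]
        · rw [if_neg hb, mul_zero, if_neg (fun h => hb (h.symm.trans ha))]
      · have ha' : ¬ z.2.1 = x.2.1 := fun h => ha h.symm
        rw [if_neg ha, zero_mul, if_neg ha']
        simp
    simp only [e1]
    by_cases hxy : x.2.1 = y.2.1
    · simp only [if_pos hxy]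
      rw [Fintype.sum_prod_type]
      have e2 : ∀ a : A, ∑ w : U × κ, (if w.1 = x.2.1 then
          Λ (x.1, x.2.2) (a, w.2) * Λ (y.1, y.2.2) (a, w.2) else 0) =
          ∑ z : κ, Λ (x.1, x.2.2) (a, z) * Λ (y.1, y.2.2) (a, z) := by
        intro a
        rw [Fintype.sum_prod_type, Finset.sum_eq_single x.2.1]
        · simp
        · intro b _ hb
          simp [hb]
        · intro h; exact absurd (Finset.mem_univ _) h
      simp only [e2]
      have e3 := congrFun (congrFun h3 (x.1, x.2.2)) (y.1, y.2.2)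
      rw [Matrix.mul_apply, Fintype.sum_prod_type] at e3
      simp only [transpose_apply] at e3
      rw [e3]
      simp only [Matrix.smul_apply, smul_eq_mul, Matrix.one_apply]
      congr 1
      rcases x with ⟨x1, x2, x3⟩
      rcases y with ⟨y1, y2, y3⟩
      simp only at hxy
      subst hxy
      simp
    · simp only [if_neg hxy, Finset.sum_const_zero]
      rw [Matrix.smul_apply, Matrix.one_apply_ne (fun h => hxy (by rw [h]))]
      simp
  · have e1 : ∀ z : A × (U × κ), lay ρ F Λ i x z * lay ρ F Λ i y z =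
        if x.1 = y.1 then (if z.1 = i - x.1 then
          dd ρ F x.1 (i - x.1) x.2 z.2 * dd ρ F x.1 (i - x.1) y.2 z.2 else 0) else 0 := by
      intro z
      simp only [lay, Matrix.of_apply, if_neg hi]
      by_cases ha : x.1 + z.1 = i
      · have ha' : z.1 = i - x.1 := by rw [← ha]; abel
        by_cases hb : y.1 + z.1 = i
        · have hxy : x.1 = y.1 := by
            have := ha.trans hb.symm
            exact add_right_cancel this
          rw [if_pos ha, if_pos hb, if_pos hxy, if_pos ha', ← hxy, ← ha']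
        · rw [if_neg hb, mul_zero]
          rw [if_neg]
          intro hxy
          exact hb (by rw [← hxy]; exact ha)
      · rw [if_neg ha, zero_mul]
        have ha' : ¬ z.1 = i - x.1 := fun h => ha (by rw [h]; abel)
        rw [if_neg ha']
        simp
    simp only [e1]
    by_cases hxy : x.1 = y.1
    · simp only [if_pos hxy]
      rw [Fintype.sum_prod_type, Finset.sum_eq_single (i - x.1)]
      · simp only [if_true]
        have hne : x.1 ≠ i - x.1 := by
          intro h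
          apply hi
          have h5 : x.1 + x.1 = i := by
            nth_rewrite 1 [h]
            abel
          rw [← h5, h2A]
        have e3 := congrFun (congrFun (dd_gram ρ hρ F m h1 h2 x.1 (i - x.1) hne) x.2) y.2
        rw [Matrix.mul_apply] at e3
        simp only [transpose_apply] at e3
        rw [e3]
        simp only [Matrix.smul_apply, smul_eq_mul, Matrix.one_apply]
        congr 1
        rcases x with ⟨x1, x2⟩
        rcases y with ⟨y1, y2⟩
        simp only at hxy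
        subst hxy
        simp
      · intro b _ hb
        simp [hb]
      · intro h; exact absurd (Finset.mem_univ _) h
    · simp only [if_neg hxy, Finset.sum_const_zero]
      rw [Matrix.smul_apply, Matrix.one_apply_ne (fun h => hxy (by rw [h]))]
      simp

end layers

/-! ### skew conference matrices of order `2^g` -/

lemma conf (g : ℕ) : ∃ (U : Type) (_ : Fintype U) (_ : DecidableEq U) (K : Matrix U U ℤ),
    Fintype.card U = 2 ^ g ∧ (∀ i j, Tern (K i j)) ∧ (∀ i, K i i = 0) ∧ Kᵀ = -K ∧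
      K * K = (1 - 2 ^ g : ℤ) • (1 : Matrix U U ℤ) := by
  induction g with
  | zero =>
    refine ⟨Unit, inferInstance, inferInstance, 0, by simp, fun _ _ => Tern.zero, fun _ => rfl,
      by simp, by simp⟩
  | succ g ih =>
    obtain ⟨U, i1, i2, K, hc, hT, hd, ht, hK⟩ := ih
    refine ⟨U ⊕ U, inferInstance, inferInstance, fromBlocks K (K + 1) (K - 1) (-K), ?_, ?_, ?_, ?_,
      ?_⟩
    · rw [Fintype.card_sum, hc]; ring
    · rintro (i | i) (j | j)
      · simpa using hT i j
      · simp only [fromBlocks_apply₁₂, Matrix.add_apply]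
        by_cases h : i = j
        · subst h; rw [hd, Matrix.one_apply_eq, zero_add]; exact Tern.one
        · rw [Matrix.one_apply_ne h, add_zero]; exact hT i j
      · simp only [fromBlocks_apply₂₁, Matrix.sub_apply]
        by_cases h : i = j
        · subst h; rw [hd, Matrix.one_apply_eq, zero_sub]; exact Tern.one.neg
        · rw [Matrix.one_apply_ne h, sub_zero]; exact hT i j
      · simpa using (hT i j).neg
    · rintro (i | i) <;> simp [hd]
    · rw [fromBlocks_transpose, fromBlocks_neg]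
      simp only [transpose_add, transpose_sub, transpose_neg, transpose_one, ht]
      congr 1 <;> abel
    · rw [fromBlocks_multiply, smul_one_blocks]
      have e : (1 - 2 ^ (g + 1) : ℤ) • (1 : Matrix U U ℤ) =
          (1 - 2 ^ g : ℤ) • (1 : Matrix U U ℤ) + (1 - 2 ^ g : ℤ) • (1 : Matrix U U ℤ) - 1 := by
        have : (1 : Matrix U U ℤ) = (1 : ℤ) • (1 : Matrix U U ℤ) := by simp
        conv_rhs => rw [this]
        rw [← smul_assoc, ← add_smul, ← sub_smul]
        congr 1
        simp only [smul_eq_mul, mul_one]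
        ring
      simp only [Matrix.mul_add, Matrix.add_mul, Matrix.mul_sub, Matrix.sub_mul, Matrix.mul_neg,
        Matrix.neg_mul, Matrix.mul_one, Matrix.one_mul, hK, e]
      congr 1 <;> abel

/-- **Dense symmetric weighing matrices from any `H` with `H Hᵀ = h`.** -/
theorem near (g h : ℕ) (κ : Type) [Fintype κ] [DecidableEq κ] (H : Matrix κ κ ℤ)
    (hT : ∀ i j, Tern (H i j)) (hH : H * Hᵀ = (h : ℤ) • (1 : Matrix κ κ ℤ)) :
    ∃ (ι : Type) (_ : Fintype ι) (_ : DecidableEq ι) (N : Matrix ι ι ℤ),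
      Fintype.card ι = 4 * 8 ^ g * Fintype.card κ ∧ (∀ i j, Tern (N i j)) ∧ Nᵀ = N ∧
      N * Nᵀ = ((4 * 4 ^ g * (2 ^ g - 1) * h : ℕ) : ℤ) • (1 : Matrix ι ι ℤ) := by
  obtain ⟨U, i1, i2, K, hUc, hKT, hKd, hKt, hKK⟩ := conf g
  obtain ⟨S, j1, j2, E0, hSc, hE0T, hE0s, hE0, -⟩ := sylvester (g + 1)
  have hH' := both_sides H hH
  -- the group
  let A : Type := Fin (g + 1) → ZMod 2
  have hAc : Fintype.card A = 2 ^ (g + 1) := by
    simp [A]
  let eS : S ≃ A := Fintype.equivOfCardEq (by rw [hSc, hAc])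
  let E : Matrix A A ℤ := E0.submatrix eS.symm eS.symm
  have hET : ∀ i j, Tern (E i j) := fun i j => hE0T _ _
  have hEt : Eᵀ = E := by
    show (E0.submatrix eS.symm eS.symm)ᵀ = E0.submatrix eS.symm eS.symm
    rw [transpose_submatrix, hE0s]
  have hEE : E * E = ((2 : ℤ) ^ (g + 1)) • (1 : Matrix A A ℤ) := by
    show E0.submatrix eS.symm eS.symm * E0.submatrix eS.symm eS.symm = _
    rw [submatrix_mul_equiv, hE0, submatrix_smul]
    simp only [Pi.smul_apply, submatrix_one_equiv]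
    push_cast
    rfl
  let ρ : A → ℕ := fun a => (Fintype.equivFin A a : ℕ)
  have hρ : Function.Injective ρ := fun a b hab =>
    (Fintype.equivFin A).injective (Fin.ext hab)
  have h2A : ∀ a : A, a + a = 0 := by
    intro a
    funext i
    exact CharTwo.add_self_eq_zero _
  -- the block
  let F : Matrix (U × κ) (U × κ) ℤ := K ⊗ₖ H
  have hFT : ∀ x y, Tern (F x y) := fun x y => (hKT _ _).mul (hT _ _)
  have hFd : ∀ u x y, F (u, x) (u, y) = 0 := by
    intro u x y
    show K u u * H x y = 0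
    rw [hKd, zero_mul]
  have hKK1 : K * Kᵀ = (2 ^ g - 1 : ℤ) • (1 : Matrix U U ℤ) := by
    rw [hKt, Matrix.mul_neg, hKK, ← neg_smul]
    congr 1
    ring
  have hKK2 : Kᵀ * K = (2 ^ g - 1 : ℤ) • (1 : Matrix U U ℤ) := by
    rw [hKt, Matrix.neg_mul, hKK, ← neg_smul]
    congr 1
    ring
  have hFt : Fᵀ = Kᵀ ⊗ₖ Hᵀ := by
    show (K ⊗ₖ H)ᵀ = _
    rw [← kroneckerMap_transpose]
  have e2 : ∀ u v : ℤ, (u • (1 : Matrix U U ℤ)) ⊗ₖ (v • (1 : Matrix κ κ ℤ)) =
      (u * v) • (1 : Matrix (U × κ) (U × κ) ℤ) := by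
    intro u v
    rw [Matrix.smul_kronecker, Matrix.kronecker_smul, Matrix.one_kronecker_one, smul_smul]
  have hF1 : F * Fᵀ = ((2 ^ g - 1 : ℤ) * h) • (1 : Matrix (U × κ) (U × κ) ℤ) := by
    rw [hFt]
    show (K ⊗ₖ H) * (Kᵀ ⊗ₖ Hᵀ) = _
    rw [← Matrix.mul_kronecker_mul, hKK1, hH, e2]
  have hF2 : Fᵀ * F = ((2 ^ g - 1 : ℤ) * h) • (1 : Matrix (U × κ) (U × κ) ℤ) := by
    rw [hFt]
    show (Kᵀ ⊗ₖ Hᵀ) * (K ⊗ₖ H) = _
    rw [← Matrix.mul_kronecker_mul, hKK2, hH', e2]
  -- the symmetric matrix of layer 0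
  have hcard : Fintype.card ((U × κ) ⊕ (U × κ)) = Fintype.card (A × κ) := by
    rw [Fintype.card_sum, Fintype.card_prod, Fintype.card_prod, hUc, hAc]
    ring
  let eL : (U × κ) ⊕ (U × κ) ≃ A × κ := Fintype.equivOfCardEq hcard
  let Λ : Matrix (A × κ) (A × κ) ℤ := (fromBlocks 0 F Fᵀ 0).submatrix eL.symm eL.symm
  have hΛT : ∀ x y, Tern (Λ x y) := by
    intro x y
    show Tern ((fromBlocks 0 F Fᵀ 0 : Matrix ((U × κ) ⊕ (U × κ)) ((U × κ) ⊕ (U × κ)) ℤ) _ _)
    rcases eL.symm x with i | i <;> rcases eL.symm y with j | j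
    · exact Tern.zero
    · exact hFT _ _
    · exact hFT _ _
    · exact Tern.zero
  have hΛt : Λᵀ = Λ := by
    show ((fromBlocks 0 F Fᵀ 0).submatrix eL.symm eL.symm)ᵀ = _
    rw [transpose_submatrix, fromBlocks_transpose]
    simp
    rfl
  have hΛΛ : Λ * Λᵀ = ((2 ^ g - 1 : ℤ) * h) • (1 : Matrix (A × κ) (A × κ) ℤ) := by
    rw [hΛt]
    show (fromBlocks 0 F Fᵀ 0).submatrix eL.symm eL.symm *
      (fromBlocks 0 F Fᵀ 0).submatrix eL.symm eL.symm = _
    rw [submatrix_mul_equiv, fromBlocks_multiply]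
    simp only [Matrix.mul_zero, Matrix.zero_mul, add_zero, zero_add, hF1, hF2]
    rw [← smul_one_blocks, submatrix_smul]
    simp only [Pi.smul_apply, submatrix_one_equiv]
  refine ⟨(A × (U × κ)) × A, inferInstance, inferInstance, big E (lay ρ F Λ), ?_, ?_, ?_, ?_⟩
  · simp only [Fintype.card_prod, hAc, hUc]
    have : (8 : ℕ) ^ g = 2 ^ g * 2 ^ g * 2 ^ g := by
      rw [← mul_pow, ← mul_pow]; norm_num
    rw [this]
    ring
  · exact fun x y => big_tern E _ hET (fun i => lay_tern ρ F Λ hFT hΛT i)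
      (fun i j x y => lay_dis ρ F Λ hFd i j x y) x y
  · exact big_transpose E _ (lay_symm ρ F Λ hΛt)
  · rw [big_gram E _ ((2 : ℤ) ^ (g + 1)) ((2 ^ g - 1 : ℤ) * h) (by rw [hEt, hEE])
      (by rw [hEt, hEE]) (lay_gram ρ hρ h2A F Λ _ hF1 hF2 hΛΛ)]
    congr 1
    have h4 : (4 : ℤ) ^ g = 2 ^ g * 2 ^ g := by
      rw [← mul_pow]; norm_num
    push_cast [Nat.one_le_two_pow]
    rw [h4]
    ring

end Pool.Agent.Lib.MP_be2ccc_co.NF
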